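import Pool.Agent.H620.Bdry.Stage

/-! The stage for sets whose boundary is thin, and the composition of the stages. -/

set_option autoImplicit false

namespace Pool.Agent.H620.Bdry

open Finset MeasureTheory

theorem aux81 {t : ℕ} (ht : 6 ≤ t) : 243 * 32 ^ t ≤ 81 ^ t := by
  induction t, ht using Nat.le_induction with
  | base => norm_num
  | succ n _ ih =>
    rw [pow_succ, pow_succ]
    omega

/-- One stage, with an explicit choice of the parameters. -/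
theorem stage_t {P : ℕ → Prop} (hP : ∀ n, 1 ≤ n → (P n ↔ P (T n))) {C c : ℝ} (hC : 0 ≤ C) (hc : 0 < c)
    (hc1 : c ≤ 1) (hcb : ∀ N : ℕ, 2 ≤ N → (cb P N : ℝ) ≤ C * N / Real.log N ^ (1 / 2 + c))
    {t : ℕ} (ht : 160000 ≤ t) {x : ℝ} (hx1 : (2 : ℝ) ^ t ≤ x) (hx2 : x < 2 ^ (t + 1)) :
    volume (Dset P x ((3 : ℝ) ^ (t / 2) / 2 ^ t)) ≤
      ENNReal.ofReal (((240 * C * 3 ^ (1 / 2 + c) + 34) * (t : ℝ) ^ (-(c / 8))) * x) := by
  have ht0 : (160000 : ℝ) ≤ t := by exact_mod_cast ht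
  have htp : (0 : ℝ) < t := by linarith
  have ht1 : (1 : ℝ) ≤ t := by linarith
  have hx0 : 0 < x := lt_of_lt_of_le (by positivity) hx1
  set R := ⌈(t : ℝ) ^ (1 / 2 + c / 4)⌉₊ with hR
  set H := (t : ℝ) ^ (c / 4) + 3 with hH
  set η := C * 3 ^ (1 / 2 + c) * (t : ℝ) ^ (-(1 / 2 + c)) with hη
  have p1 : (1 : ℝ) ≤ (t : ℝ) ^ (1 / 2 + c / 4) := Real.one_le_rpow ht1 (by positivity)
  have p2 : (1 : ℝ) ≤ (t : ℝ) ^ (c / 4) := Real.one_le_rpow ht1 (by positivity)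
  have hRl : (t : ℝ) ^ (1 / 2 + c / 4) ≤ R := Nat.le_ceil _
  have hRu : (R : ℝ) < (t : ℝ) ^ (1 / 2 + c / 4) + 1 := Nat.ceil_lt_add_one (by positivity)
  have hR1 : 1 ≤ R := by
    have : (1 : ℝ) ≤ R := p1.trans hRl
    exact_mod_cast this
  -- `10 R ≤ t`
  have hq : (t : ℝ) ^ (1 / 2 + c / 4) * 20 ≤ t := by
    have h1 : (t : ℝ) ^ (1 / 2 + c / 4) ≤ (t : ℝ) ^ ((3 : ℝ) / 4) :=
      Real.rpow_le_rpow_of_exponent_le ht1 (by linarith)
    have h2 : (20 : ℝ) ≤ (t : ℝ) ^ ((1 : ℝ) / 4) := by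
      have h3 : ((160000 : ℝ)) ^ ((1 : ℝ) / 4) = 20 := by
        rw [show (160000 : ℝ) = 20 ^ (4 : ℝ) by norm_num, ← Real.rpow_mul (by norm_num)]
        norm_num
      rw [← h3]
      exact Real.rpow_le_rpow (by norm_num) ht0 (by norm_num)
    calc (t : ℝ) ^ (1 / 2 + c / 4) * 20 ≤ (t : ℝ) ^ ((3 : ℝ) / 4) * (t : ℝ) ^ ((1 : ℝ) / 4) := by gcongr
      _ = t := by
        rw [← Real.rpow_add htp]; norm_num
  have h10 : 10 * R ≤ t := by
    have : (10 : ℝ) * R ≤ t := by linarith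
    exact_mod_cast this
  have hRt : R ≤ t / 2 := by omega
  have hκ : 3 ^ (t / 2 + R) ≤ 2 ^ t := by
    have h1 : (3 ^ (t / 2 + R)) ^ 10 ≤ (2 ^ t) ^ 10 := by
      rw [← pow_mul, ← pow_mul]
      calc 3 ^ ((t / 2 + R) * 10) ≤ 3 ^ (6 * t) := Nat.pow_le_pow_right (by norm_num) (by omega)
        _ = 729 ^ t := by rw [pow_mul]; norm_num
        _ ≤ 1024 ^ t := Nat.pow_le_pow_left (by norm_num) t
        _ = 2 ^ (t * 10) := by rw [mul_comm, pow_mul]; norm_num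
    exact (Nat.pow_le_pow_iff_left (by norm_num)).1 h1
  have hlowN : 2 ^ (t / 2) ≤ 3 ^ (t / 2 - R) := by
    have h1 : (2 ^ (t / 2)) ^ 10 ≤ (3 ^ (t / 2 - R)) ^ 10 := by
      rw [← pow_mul, ← pow_mul]
      have h2 : 243 * 32 ^ t ≤ 81 ^ t := aux81 (by omega)
      have h3 : 3 ^ 5 * 2 ^ (t / 2 * 10) ≤ 3 ^ 5 * 3 ^ ((t / 2 - R) * 10) := by
        calc 3 ^ 5 * 2 ^ (t / 2 * 10) ≤ 3 ^ 5 * 2 ^ (5 * t) := by
              apply Nat.mul_le_mul_left
              exact Nat.pow_le_pow_right (by norm_num) (by omega)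
          _ = 243 * 32 ^ t := by rw [pow_mul]; norm_num
          _ ≤ 81 ^ t := h2
          _ = 3 ^ (4 * t) := by rw [pow_mul]; norm_num
          _ ≤ 3 ^ (5 + (t / 2 - R) * 10) := Nat.pow_le_pow_right (by norm_num) (by omega)
          _ = 3 ^ 5 * 3 ^ ((t / 2 - R) * 10) := by rw [pow_add]
      exact Nat.le_of_mul_le_mul_left h3 (by norm_num)
    exact (Nat.pow_le_pow_iff_left (by norm_num)).1 h1
  have hlow0 : ((2 ^ (t / 2) : ℕ) : ℝ) ≤ (3 : ℝ) ^ (t / 2 - R) / 2 ^ t * x := by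
    calc ((2 ^ (t / 2) : ℕ) : ℝ) ≤ ((3 ^ (t / 2 - R) : ℕ) : ℝ) := by exact_mod_cast hlowN
      _ = (3 : ℝ) ^ (t / 2 - R) / 2 ^ t * 2 ^ t := by push_cast; field_simp
      _ ≤ (3 : ℝ) ^ (t / 2 - R) / 2 ^ t * x := by gcongr
  have hHle : H ≤ (3 : ℝ) ^ (t / 2 - R) / 2 ^ t * x := by
    refine le_trans ?_ hlow0
    have h1 : (t : ℝ) ^ (c / 4) ≤ t := by
      calc (t : ℝ) ^ (c / 4) ≤ (t : ℝ) ^ (1 : ℝ) := Real.rpow_le_rpow_of_exponent_le ht1 (by linarith)
        _ = t := Real.rpow_one _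
    have h2 : t + 3 ≤ 2 ^ (t / 2) := by
      have h3 : t / 4 < 2 ^ (t / 4) := Nat.lt_two_pow_self
      have h4 : (t / 4) * (t / 4) ≤ 2 ^ (t / 4) * 2 ^ (t / 4) := Nat.mul_le_mul h3.le h3.le
      have h5 : 2 ^ (t / 4) * 2 ^ (t / 4) ≤ 2 ^ (t / 2) := by
        rw [← pow_add]
        exact Nat.pow_le_pow_right (by norm_num) (by omega)
      have h6 : t + 3 ≤ (t / 4) * (t / 4) := by
        have : 40000 ≤ t / 4 := by omega
        have h7 : 40000 * (t / 4) ≤ (t / 4) * (t / 4) := Nat.mul_le_mul_right _ this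
        omega
      omega
    have h2' : (t : ℝ) + 3 ≤ ((2 ^ (t / 2) : ℕ) : ℝ) := by exact_mod_cast h2
    rw [hH]
    linarith
  have hη0 : 0 ≤ η := by positivity
  have hcb' : ∀ N : ℕ, 2 ^ (t / 2) ≤ N → (cb P N : ℝ) ≤ η * N := by
    intro N hN
    have hN2 : 2 ≤ N := by
      calc 2 = 2 ^ 1 := by norm_num
        _ ≤ 2 ^ (t / 2) := Nat.pow_le_pow_right (by norm_num) (by omega)
        _ ≤ N := hN
    refine (hcb N hN2).trans ?_
    have hN0 : (0 : ℝ) < N := by exact_mod_cast (by omega : 0 < N)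
    have hlog : (t : ℝ) / 3 ≤ Real.log N := by
      have h1 : Real.log ((2 ^ (t / 2) : ℕ) : ℝ) ≤ Real.log N :=
        Real.log_le_log (by positivity) (by exact_mod_cast hN)
      rw [Nat.cast_pow, Real.log_pow] at h1
      have h2 : ((t : ℝ) - 1) / 2 ≤ ((t / 2 : ℕ) : ℝ) := by
        have : t ≤ 2 * (t / 2) + 1 := by omega
        have : (t : ℝ) ≤ 2 * ((t / 2 : ℕ) : ℝ) + 1 := by exact_mod_cast this
        linarith
      have h3 := Real.log_two_gt_d9
      have h4 : ((t : ℝ) - 1) / 2 * 0.6931471803 ≤ ((t / 2 : ℕ) : ℝ) * Real.log ((2 : ℕ) : ℝ) := by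
        push_cast
        gcongr
      linarith
    have hpow : ((t : ℝ) / 3) ^ (1 / 2 + c) ≤ Real.log N ^ (1 / 2 + c) :=
      Real.rpow_le_rpow (by positivity) hlog (by positivity)
    have h5 : C * N / Real.log N ^ (1 / 2 + c) ≤ C * N / ((t : ℝ) / 3) ^ (1 / 2 + c) := by
      gcongr
    refine h5.trans (le_of_eq ?_)
    rw [Real.div_rpow htp.le (by norm_num), hη, Real.rpow_neg htp.le]
    field_simp
  have hst := stage hP (x := x) (H := H) (η := η) (t := t) (R := R) (N₀ := 2 ^ (t / 2)) (by omega) hx1 hx2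
    (by rw [hH]; linarith) hR1 hRt hκ hHle hlow0 hη0 hcb'
  refine hst.trans (ENNReal.ofReal_le_ofReal ?_)
  apply mul_le_mul_of_nonneg_right _ hx0.le
  -- the three terms
  set g := (t : ℝ) ^ (-(c / 8)) with hg
  have hg0 : 0 < g := by positivity
  have t1 : 12 * (2 * (R : ℝ) + 1) * H * η ≤ 240 * C * 3 ^ (1 / 2 + c) * g := by
    have a1 : 2 * (R : ℝ) + 1 ≤ 5 * (t : ℝ) ^ (1 / 2 + c / 4) := by linarith
    have a2 : H ≤ 4 * (t : ℝ) ^ (c / 4) := by rw [hH]; linarith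
    calc 12 * (2 * (R : ℝ) + 1) * H * η
        ≤ 12 * (5 * (t : ℝ) ^ (1 / 2 + c / 4)) * (4 * (t : ℝ) ^ (c / 4)) * η := by gcongr
      _ = 240 * C * 3 ^ (1 / 2 + c) *
          ((t : ℝ) ^ (1 / 2 + c / 4) * (t : ℝ) ^ (c / 4) * (t : ℝ) ^ (-(1 / 2 + c))) := by
          rw [hη]; ring
      _ = 240 * C * 3 ^ (1 / 2 + c) * (t : ℝ) ^ (-(c / 2)) := by
          rw [← Real.rpow_add htp, ← Real.rpow_add htp]
          congr 2; ring
      _ ≤ 240 * C * 3 ^ (1 / 2 + c) * g := by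
          apply mul_le_mul_of_nonneg_left _ (by positivity)
          exact Real.rpow_le_rpow_of_exponent_le ht1 (by linarith)
  have t2 : 33 / √H ≤ 33 * g := by
    have a1 : (t : ℝ) ^ (c / 8) ≤ √H := by
      apply Real.le_sqrt_of_sq_le
      rw [← Real.rpow_natCast, ← Real.rpow_mul htp.le]
      have : c / 8 * ((2 : ℕ) : ℝ) = c / 4 := by push_cast; ring
      rw [this, hH]
      linarith
    have a2 : 0 < (t : ℝ) ^ (c / 8) := by positivity
    rw [hg, Real.rpow_neg htp.le, ← div_eq_mul_inv]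
    gcongr
  have t3 : 3 * (t : ℝ) / (2 * R) ^ 2 ≤ g := by
    have a1 : (t : ℝ) ^ (1 + c / 2) ≤ (R : ℝ) ^ 2 := by
      calc (t : ℝ) ^ (1 + c / 2) = ((t : ℝ) ^ (1 / 2 + c / 4)) ^ 2 := by
            rw [← Real.rpow_natCast, ← Real.rpow_mul htp.le]
            congr 1; push_cast; ring
        _ ≤ (R : ℝ) ^ 2 := by gcongr
    have a3 : 0 < (t : ℝ) ^ (1 + c / 2) := by positivity
    calc 3 * (t : ℝ) / (2 * R) ^ 2 ≤ 3 * t / (4 * (t : ℝ) ^ (1 + c / 2)) := by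
          rw [mul_pow]; norm_num; gcongr
      _ = 3 / 4 * (t : ℝ) ^ (-(c / 2)) := by
          rw [Real.rpow_add htp, Real.rpow_one, Real.rpow_neg htp.le]
          field_simp
      _ ≤ 1 * (t : ℝ) ^ (-(c / 2)) := by gcongr; norm_num
      _ ≤ g := by
          rw [one_mul]
          exact Real.rpow_le_rpow_of_exponent_le ht1 (by linarith)
  linarith

/-- One stage in terms of `log x`. -/
theorem stage_log {P : ℕ → Prop} (hP : ∀ n, 1 ≤ n → (P n ↔ P (T n))) {C c : ℝ} (hC : 0 ≤ C) (hc : 0 < c)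
    (hc1 : c ≤ 1) (hcb : ∀ N : ℕ, 2 ≤ N → (cb P N : ℝ) ≤ C * N / Real.log N ^ (1 / 2 + c)) :
    ∃ A L₁ : ℝ, 0 < A ∧ 1 ≤ L₁ ∧ ∀ x : ℝ, 0 < x → L₁ ≤ Real.log x → ∃ κ : ℝ, 0 < κ ∧
      Real.log x / 2 ≤ Real.log (κ * x) ∧ Real.log (κ * x) ≤ 0.9 * Real.log x ∧
      volume (Dset P x κ) ≤ ENNReal.ofReal (A * Real.log x ^ (-(c / 8)) * x) := by
  refine ⟨240 * C * 3 ^ (1 / 2 + c) + 34, 200000, by positivity, by norm_num, fun x hx0 hx => ?_⟩
  set t := Nat.log 2 ⌊x⌋₊ with ht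
  have hxbig : (200001 : ℝ) ≤ x := by
    have := Real.add_one_le_exp (Real.log x)
    rw [Real.exp_log hx0] at this
    linarith
  have hfl : ⌊x⌋₊ ≠ 0 := by
    have : 200001 ≤ ⌊x⌋₊ := Nat.le_floor (by exact_mod_cast hxbig)
    omega
  have hx1 : (2 : ℝ) ^ t ≤ x := by
    have h1 : 2 ^ t ≤ ⌊x⌋₊ := Nat.pow_log_le_self 2 hfl
    have h2 : ((2 ^ t : ℕ) : ℝ) ≤ x := (Nat.cast_le.2 h1).trans (Nat.floor_le hx0.le)
    exact_mod_cast h2
  have hx2 : x < 2 ^ (t + 1) := by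
    have h1 : ⌊x⌋₊ < 2 ^ (t + 1) := Nat.lt_pow_succ_log_self (by norm_num) _
    have h2 : (⌊x⌋₊ : ℝ) + 1 ≤ ((2 ^ (t + 1) : ℕ) : ℝ) := by exact_mod_cast h1
    have h3 := Nat.lt_floor_add_one x
    push_cast at h2
    linarith
  have l2 := Real.log_two_gt_d9
  have l2' := Real.log_two_lt_d9
  have hlx1 : t * Real.log 2 ≤ Real.log x := by
    rw [← Real.log_pow]
    exact Real.log_le_log (by positivity) hx1
  have hlx2 : Real.log x ≤ (t + 1) * Real.log 2 := by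
    have : Real.log x ≤ Real.log ((2 : ℝ) ^ (t + 1)) := Real.log_le_log hx0 hx2.le
    rw [Real.log_pow] at this
    push_cast at this
    exact this
  have htbig : (200000 : ℝ) ≤ t := by
    by_contra hcon
    push Not at hcon
    have : (t + 1) * Real.log 2 < 200001 * 0.6931471808 := by
      have h0 : (0 : ℝ) ≤ t := Nat.cast_nonneg _
      nlinarith
    linarith
  have htN : 160000 ≤ t := by
    have : (160000 : ℝ) ≤ t := by linarith
    exact_mod_cast this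
  have hst := stage_t hP hC hc hc1 hcb htN hx1 hx2
  -- log 3
  have l3 : Real.log 3 < 1.1 := by
    rw [Real.log_lt_iff_lt_exp (by norm_num)]
    have := Real.exp_one_gt_d9
    have h1 : Real.exp 1.1 = Real.exp 1 * Real.exp 0.1 := by rw [← Real.exp_add]; norm_num
    have h2 := Real.add_one_le_exp (0.1 : ℝ)
    have h3 : (0.1 : ℝ) + 1 = 1.1 := by norm_num
    rw [h1]
    have h4 := Real.quadratic_le_exp_of_nonneg (by norm_num : (0 : ℝ) ≤ 0.1)
    nlinarith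
  have l3' : 1 < Real.log 3 := by
    rw [Real.lt_log_iff_exp_lt (by norm_num)]
    have := Real.exp_one_lt_d9
    linarith
  have e1 : Real.log ((3 : ℝ) ^ (t / 2) / 2 ^ t * x) =
      ((t / 2 : ℕ) : ℝ) * Real.log 3 - t * Real.log 2 + Real.log x := by
    rw [Real.log_mul (by positivity) hx0.ne', Real.log_div (by positivity) (by positivity), Real.log_pow,
      Real.log_pow]
  have h2a : ((t : ℝ) - 1) / 2 ≤ ((t / 2 : ℕ) : ℝ) := by
    have : t ≤ 2 * (t / 2) + 1 := by omega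
    have : (t : ℝ) ≤ 2 * ((t / 2 : ℕ) : ℝ) + 1 := by exact_mod_cast this
    linarith
  have h2b : ((t / 2 : ℕ) : ℝ) ≤ (t : ℝ) / 2 := Nat.cast_div_le
  refine ⟨(3 : ℝ) ^ (t / 2) / 2 ^ t, by positivity, ?_, ?_, ?_⟩
  · rw [e1]
    nlinarith
  · rw [e1]
    nlinarith
  · refine hst.trans (ENNReal.ofReal_le_ofReal ?_)
    apply mul_le_mul_of_nonneg_right _ hx0.le
    apply mul_le_mul_of_nonneg_left _ (by positivity)
    have hlpos : 0 < Real.log x := by linarith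
    have htl : Real.log x ≤ t := by nlinarith
    rw [Real.rpow_neg (by positivity), Real.rpow_neg hlpos.le]
    apply inv_anti₀ (by positivity)
    exact Real.rpow_le_rpow hlpos.le htl (by positivity)

/-- The composition of the stages: the property at `y` is the property at `κ y`, where `κ y` is bounded. -/
theorem multi {P : ℕ → Prop} {A L₁ γ : ℝ} (hA : 0 < A) (hγ : 0 < γ)
    (hst : ∀ x : ℝ, 0 < x → L₁ ≤ Real.log x → ∃ κ : ℝ, 0 < κ ∧
      Real.log x / 2 ≤ Real.log (κ * x) ∧ Real.log (κ * x) ≤ 0.9 * Real.log x ∧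
      volume (Dset P x κ) ≤ ENNReal.ofReal (A * Real.log x ^ (-γ) * x)) (ε : ℝ) (hε : 0 < ε) (L₂ : ℝ) :
    ∃ L₀ : ℝ, L₂ ≤ L₀ ∧ 0 < L₀ ∧ ∀ x : ℝ, 0 < x → L₀ ≤ Real.log x → ∃ κ : ℝ, 0 < κ ∧
      L₀ ≤ Real.log (κ * x) ∧ Real.log (κ * x) ≤ 2 * L₀ ∧
      volume (Dset P x κ) ≤ ENNReal.ofReal (ε * x) := by
  have h09 : 1 < (0.9 : ℝ) ^ (-γ) := Real.one_lt_rpow_of_pos_of_lt_one_of_neg (by norm_num) (by norm_num)
    (by linarith)
  set B := A / ((0.9 : ℝ) ^ (-γ) - 1) with hB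
  have hB0 : 0 < B := div_pos hA (by linarith)
  -- the choice of `L₀`
  have htend : Filter.Tendsto (fun L : ℝ => B * L ^ (-γ)) Filter.atTop (nhds 0) := by
    have := (tendsto_rpow_neg_atTop hγ).const_mul B
    simpa using this
  obtain ⟨L₃, hL₃⟩ := (Filter.eventually_atTop.1 (htend.eventually (ge_mem_nhds hε)))
  set L₀ := max (max L₁ L₂) (max L₃ 10) with hL₀
  have g1 : L₁ ≤ L₀ := (le_max_left _ _).trans (le_max_left _ _)
  have g2 : L₂ ≤ L₀ := (le_max_right _ _).trans (le_max_left _ _)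
  have g3 : L₃ ≤ L₀ := (le_max_left _ _).trans (le_max_right _ _)
  have g4 : 10 ≤ L₀ := (le_max_right _ _).trans (le_max_right _ _)
  have hL0p : 0 < L₀ := by linarith
  have key : ∀ k : ℕ, ∀ x : ℝ, 0 < x → L₀ ≤ Real.log x → Real.log x ≤ k → ∃ κ : ℝ, 0 < κ ∧
      L₀ ≤ Real.log (κ * x) ∧ Real.log (κ * x) ≤ 2 * L₀ ∧
      volume (Dset P x κ) ≤ ENNReal.ofReal (B * (L₀ ^ (-γ) - Real.log x ^ (-γ)) * x) := by
    intro k
    induction k with
    | zero =>
      intro x hx h1 h2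
      push_cast at h2
      linarith
    | succ k ih =>
      intro x hx h1 h2
      have hlp : 0 < Real.log x := by linarith
      have hmono : Real.log x ^ (-γ) ≤ L₀ ^ (-γ) :=
        Real.rpow_le_rpow_of_nonpos hL0p h1 (by linarith)
      rcases le_or_gt (Real.log x) (2 * L₀) with h3 | h3
      · refine ⟨1, one_pos, by rwa [one_mul], by rwa [one_mul], ?_⟩
        have : Dset P x 1 = ∅ := by
          ext y
          simp [Dset]
        rw [this]
        simp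
      · obtain ⟨κ, hκ, a1, a2, a3⟩ := hst x hx (by linarith)
        have hκx : 0 < κ * x := mul_pos hκ hx
        obtain ⟨κ', hκ', b1, b2, b3⟩ := ih (κ * x) hκx (by linarith) (by push_cast at h2; linarith)
        refine ⟨κ' * κ, mul_pos hκ' hκ, by rwa [mul_assoc], by rwa [mul_assoc], ?_⟩
        have hlk : L₀ ≤ Real.log (κ * x) := by linarith
        have hmono' : Real.log (κ * x) ^ (-γ) ≤ L₀ ^ (-γ) :=
          Real.rpow_le_rpow_of_nonpos hL0p hlk (by linarith)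
        have hcomp := Dset_comp' P x κ κ' (A * Real.log x ^ (-γ))
          (B * (L₀ ^ (-γ) - Real.log (κ * x) ^ (-γ))) hx.le hκ (by positivity)
          (mul_nonneg hB0.le (by linarith)) a3 b3
        refine hcomp.trans (ENNReal.ofReal_le_ofReal ?_)
        apply mul_le_mul_of_nonneg_right _ hx.le
        have h5 : (0.9 : ℝ) ^ (-γ) * Real.log x ^ (-γ) ≤ Real.log (κ * x) ^ (-γ) := by
          rw [← Real.mul_rpow (by norm_num) hlp.le]
          exact Real.rpow_le_rpow_of_nonpos (by linarith) a2 (by linarith)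
        have h6 : B * ((0.9 : ℝ) ^ (-γ) - 1) = A := by
          rw [hB]; field_simp
          rw [div_self (by linarith)]
        have h7 : 0 < Real.log x ^ (-γ) := by positivity
        have h8 : B * ((0.9 : ℝ) ^ (-γ) * Real.log x ^ (-γ)) ≤ B * Real.log (κ * x) ^ (-γ) :=
          mul_le_mul_of_nonneg_left h5 hB0.le
        have h9 : B * ((0.9 : ℝ) ^ (-γ) * Real.log x ^ (-γ)) =
            A * Real.log x ^ (-γ) + B * Real.log x ^ (-γ) := by
          rw [← h6]; ring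
        nlinarith
  refine ⟨L₀, g2, hL0p, fun x hx h1 => ?_⟩
  obtain ⟨κ, hκ, a1, a2, a3⟩ := key ⌈Real.log x⌉₊ x hx h1 (Nat.le_ceil _)
  refine ⟨κ, hκ, a1, a2, a3.trans (ENNReal.ofReal_le_ofReal ?_)⟩
  apply mul_le_mul_of_nonneg_right _ hx.le
  have hlp : 0 < Real.log x := by linarith
  have h7 : 0 < Real.log x ^ (-γ) := by positivity
  have h10 : B * L₀ ^ (-γ) ≤ ε := hL₃ L₀ g3
  nlinarith

end Pool.Agent.H620.Bdry
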