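import Pool.Agent.H620.Bdry.Asymp

/-! A set with a natural density which is nearly invariant under a multiplication by a small number. -/

set_option autoImplicit false

namespace Pool.Agent.H620.Bdry

open Finset MeasureTheory Filter Topology

/-- The bad integers over `m`. -/
noncomputable def G (P : ℕ → Prop) (κ : ℝ) (m : ℕ) : Finset ℕ := by
  classical
  exact (Finset.Ico ⌈(m : ℝ) / κ⌉₊ ⌊((m : ℝ) + 1) / κ⌋₊).filter (fun n => ¬ (P n ↔ P m))

theorem mem_G {P : ℕ → Prop} {κ : ℝ} {m n : ℕ} (h : n ∈ G P κ m) :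
    (m : ℝ) / κ ≤ n ∧ (n : ℝ) + 1 ≤ ((m : ℝ) + 1) / κ ∧ ¬ (P n ↔ P m) := by
  classical
  unfold G at h
  rw [Finset.mem_filter, Finset.mem_Ico] at h
  obtain ⟨⟨h1, h2⟩, h3⟩ := h
  refine ⟨Nat.ceil_le.1 h1, ?_, h3⟩
  have h4 : n + 1 ≤ ⌊((m : ℝ) + 1) / κ⌋₊ := h2
  have h5 : ((n + 1 : ℕ) : ℝ) ≤ ((m : ℝ) + 1) / κ := by
    refine le_trans (by exact_mod_cast h4) (Nat.floor_le ?_)
    by_contra hcon
    push Not at hcon
    rw [Nat.floor_of_nonpos hcon.le] at h4
    omega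
  push_cast at h5
  exact h5

theorem sum_G {P : ℕ → Prop} {x κ ε : ℝ} (hx : 0 < x) (hκ : 0 < κ) (hε : 0 ≤ ε)
    (hD : volume (Dset P x κ) ≤ ENNReal.ofReal (ε * x)) :
    ∑ m ∈ Finset.Ico ⌈κ * x⌉₊ ⌊2 * (κ * x)⌋₊, ((G P κ m).card : ℝ) ≤ ε * x := by
  classical
  set s := Finset.Ico ⌈κ * x⌉₊ ⌊2 * (κ * x)⌋₊ with hs
  have hdisj : (s : Set ℕ).PairwiseDisjoint (G P κ) := by
    have key : ∀ m m' : ℕ, m < m' → Disjoint (G P κ m) (G P κ m') := by
      intro m m' hmm
      rw [Finset.disjoint_left]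
      intro n hn hn'
      have h1 := (mem_G hn).2.1
      have h2 := (mem_G hn').1
      have h3 : ((m : ℝ) + 1) / κ ≤ (m' : ℝ) / κ := by
        have : (m : ℝ) + 1 ≤ m' := by exact_mod_cast hmm
        gcongr
      linarith
    intro m _ m' _ hne
    rcases lt_or_gt_of_ne hne with h | h
    · exact key _ _ h
    · exact (key _ _ h).symm
  have hcard : ∑ m ∈ s, (G P κ m).card = (s.biUnion (G P κ)).card := (Finset.card_biUnion hdisj).symm
  have hvol : volume (⋃ n ∈ s.biUnion (G P κ), Set.Ico (n : ℝ) (n + 1)) =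
      ((s.biUnion (G P κ)).card : ENNReal) := by
    rw [measure_biUnion_finset]
    · rw [Finset.sum_congr rfl (g := fun _ => (1 : ENNReal))]
      · simp
      · intro n _
        rw [Real.volume_Ico]
        simp
    · have key : ∀ n n' : ℕ, n < n' → Disjoint (Set.Ico (n : ℝ) (n + 1)) (Set.Ico (n' : ℝ) (n' + 1)) := by
        intro n n' hnn
        rw [Set.disjoint_left]
        intro y hy hy'
        rw [Set.mem_Ico] at hy hy'
        have : (n : ℝ) + 1 ≤ n' := by exact_mod_cast hnn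
        linarith [hy.2, hy'.1]
      intro n _ n' _ hne
      rcases lt_or_gt_of_ne hne with h | h
      · exact key _ _ h
      · exact (key _ _ h).symm
    · intro n _
      exact measurableSet_Ico
  have hsub : (⋃ n ∈ s.biUnion (G P κ), Set.Ico (n : ℝ) (n + 1)) ⊆ Dset P x κ := by
    intro y hy
    rw [Set.mem_iUnion₂] at hy
    obtain ⟨n, hn, hy⟩ := hy
    rw [Finset.mem_biUnion] at hn
    obtain ⟨m, hm, hn⟩ := hn
    rw [Set.mem_Ico] at hy
    obtain ⟨h1, h2, h3⟩ := mem_G hn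
    rw [hs, Finset.mem_Ico] at hm
    have hm1 : κ * x ≤ m := Nat.ceil_le.1 hm.1
    have hm2 : (m : ℝ) + 1 ≤ 2 * (κ * x) := by
      have h4 : m + 1 ≤ ⌊2 * (κ * x)⌋₊ := hm.2
      have h5 : ((m + 1 : ℕ) : ℝ) ≤ 2 * (κ * x) :=
        le_trans (by exact_mod_cast h4) (Nat.floor_le (by positivity))
      push_cast at h5
      exact h5
    have hy0 : (0 : ℝ) ≤ y := le_trans (Nat.cast_nonneg n) hy.1
    rw [div_le_iff₀ hκ] at h1
    rw [le_div_iff₀ hκ] at h2
    have e1 : (m : ℝ) ≤ κ * y := by nlinarith [hy.1]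
    have e2 : κ * y < m + 1 := by nlinarith [hy.2]
    have f1 : ⌊y⌋₊ = n := by
      rw [Nat.floor_eq_iff hy0]
      exact hy
    have f2 : ⌊κ * y⌋₊ = m := by
      rw [Nat.floor_eq_iff (by positivity)]
      exact ⟨e1, e2⟩
    refine ⟨?_, ?_, ?_⟩
    · by_contra hcon
      push Not at hcon
      have : κ * y < κ * x := by gcongr
      linarith
    · by_contra hcon
      push Not at hcon
      have : κ * (2 * x) < κ * y := by gcongr
      linarith
    · unfold W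
      rw [f1, f2]
      exact h3
  have h1 : ((s.biUnion (G P κ)).card : ENNReal) ≤ ENNReal.ofReal (ε * x) := by
    rw [← hvol]
    exact (measure_mono hsub).trans hD
  have h2 : ((s.biUnion (G P κ)).card : ℝ) ≤ ε * x := by
    rw [← ENNReal.ofReal_natCast] at h1
    exact (ENNReal.ofReal_le_ofReal_iff (by positivity)).1 h1
  calc ∑ m ∈ s, ((G P κ m).card : ℝ) = ((∑ m ∈ s, (G P κ m).card : ℕ) : ℝ) := by push_cast; rfl
    _ = ((s.biUnion (G P κ)).card : ℝ) := by rw [hcard]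
    _ ≤ ε * x := h2

theorem exists_m {P : ℕ → Prop} {x κ ε : ℝ} (hx : 0 < x) (hκ : 0 < κ) (hε : 0 < ε) (h4 : 4 < κ * x)
    (hD : volume (Dset P x κ) ≤ ENNReal.ofReal (ε * x)) :
    ∃ m : ℕ, κ * x ≤ m ∧ (m : ℝ) + 1 ≤ 2 * (κ * x) ∧ ((G P κ m).card : ℝ) ≤ 2 * ε / κ := by
  classical
  by_contra hcon
  push Not at hcon
  set s := Finset.Ico ⌈κ * x⌉₊ ⌊2 * (κ * x)⌋₊ with hs
  have h1 : ∀ m ∈ s, 2 * ε / κ ≤ ((G P κ m).card : ℝ) := by
    intro m hm
    rw [hs, Finset.mem_Ico] at hm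
    have hm1 : κ * x ≤ m := Nat.ceil_le.1 hm.1
    have hm2 : (m : ℝ) + 1 ≤ 2 * (κ * x) := by
      have h4 : m + 1 ≤ ⌊2 * (κ * x)⌋₊ := hm.2
      have h5 : ((m + 1 : ℕ) : ℝ) ≤ 2 * (κ * x) :=
        le_trans (by exact_mod_cast h4) (Nat.floor_le (by positivity))
      push_cast at h5
      exact h5
    exact (hcon m hm1 hm2).le
  have h2 := Finset.sum_le_sum h1
  rw [Finset.sum_const, nsmul_eq_mul, hs, Nat.card_Ico] at h2
  have h3 := sum_G (P := P) hx hκ hε.le hD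
  have h5 : κ * x - 2 < ((⌊2 * (κ * x)⌋₊ - ⌈κ * x⌉₊ : ℕ) : ℝ) := by
    have a1 := Nat.lt_floor_add_one (2 * (κ * x))
    have a2 := Nat.ceil_lt_add_one (by positivity : (0 : ℝ) ≤ κ * x)
    have a3 : ⌈κ * x⌉₊ ≤ ⌊2 * (κ * x)⌋₊ := by
      have : (⌈κ * x⌉₊ : ℝ) < (⌊2 * (κ * x)⌋₊ : ℝ) + 1 := by linarith
      have : ⌈κ * x⌉₊ < ⌊2 * (κ * x)⌋₊ + 1 := by exact_mod_cast this
      omega
    rw [Nat.cast_sub a3]
    linarith
  have h6 : (κ * x - 2) * (2 * ε / κ) < ε * x := by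
    refine lt_of_lt_of_le ?_ (h2.trans h3)
    exact mul_lt_mul_of_pos_right h5 (by positivity)
  rw [mul_div_assoc', div_lt_iff₀ hκ] at h6
  nlinarith

/-- Counting function. -/
noncomputable def D (P : ℕ → Prop) (N : ℕ) : ℕ := {n : ℕ | 1 ≤ n ∧ n ≤ N ∧ P n}.ncard

theorem D_Ico {P : ℕ → Prop} [DecidablePred P] {a b : ℕ} (ha : 1 ≤ a) (hab : a ≤ b) :
    D P (b - 1) = D P (a - 1) + ((Finset.Ico a b).filter P).card := by
  have h : ∀ N, D P N = ((Finset.Icc 1 N).filter P).card := by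
    intro N
    unfold D
    rw [← Set.ncard_coe_finset]
    congr 1
    ext n
    simp [and_assoc]
  rw [h, h, ← Finset.card_union_of_disjoint]
  · congr 1
    ext n
    simp only [Finset.mem_union, Finset.mem_filter, Finset.mem_Icc, Finset.mem_Ico]
    constructor
    · rintro ⟨h1, h2⟩
      by_cases h3 : n < a
      · left; exact ⟨⟨h1.1, by omega⟩, h2⟩
      · right; exact ⟨⟨by omega, by omega⟩, h2⟩
    · rintro (⟨h1, h2⟩ | ⟨h1, h2⟩)
      · exact ⟨⟨h1.1, by omega⟩, h2⟩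
      · exact ⟨⟨by omega, by omega⟩, h2⟩
  · rw [Finset.disjoint_left]
    intro n h1 h2
    simp only [Finset.mem_filter, Finset.mem_Icc, Finset.mem_Ico] at h1 h2
    omega

theorem contra {P : ℕ → Prop} {l : ℝ} (hl0 : 0 < l) (hl1 : l < 1)
    (hl : Tendsto (fun N : ℕ => (D P N : ℝ) / N) atTop (𝓝 l))
    (hmul : ∀ ε : ℝ, 0 < ε → ∀ L₂ : ℝ,
    ∃ L₀ : ℝ, L₂ ≤ L₀ ∧ 0 < L₀ ∧ ∀ x : ℝ, 0 < x → L₀ ≤ Real.log x → ∃ κ : ℝ, 0 < κ ∧
      L₀ ≤ Real.log (κ * x) ∧ Real.log (κ * x) ≤ 2 * L₀ ∧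
      volume (Dset P x κ) ≤ ENNReal.ofReal (ε * x)) : False := by
  classical
  set ε := min l (1 - l) / 8 with hεd
  have hε : 0 < ε := by
    rw [hεd]
    have : 0 < min l (1 - l) := lt_min hl0 (by linarith)
    positivity
  have hε1 : 8 * ε ≤ l := by
    rw [hεd]; linarith [min_le_left l (1 - l)]
  have hε2 : 8 * ε ≤ 1 - l := by
    rw [hεd]; linarith [min_le_right l (1 - l)]
  obtain ⟨L₀, hL2, hL0, hx⟩ := hmul ε hε 2
  set K := Real.exp (2 * L₀) with hK
  have hK0 : 0 < K := Real.exp_pos _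
  set δ := ε / (4 * K) with hδ
  have hδ0 : 0 < δ := by positivity
  -- the density
  have h1 : ∀ᶠ N : ℕ in atTop, |(D P N : ℝ) / N - l| < δ := by
    have := (Metric.tendsto_atTop.1 hl) δ hδ0
    obtain ⟨N₀, hN₀⟩ := this
    filter_upwards [eventually_ge_atTop N₀] with N hN
    have := hN₀ N hN
    rwa [Real.dist_eq] at this
  obtain ⟨N₁, hN₁⟩ := eventually_atTop.1 (h1.and (eventually_ge_atTop 1))
  have hden : ∀ N, N₁ ≤ N → (l - δ) * N ≤ D P N ∧ (D P N : ℝ) ≤ (l + δ) * N := by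
    intro N hN
    obtain ⟨h2, h3⟩ := hN₁ N hN
    have hN0 : (0 : ℝ) < N := by exact_mod_cast h3
    rw [abs_lt] at h2
    constructor
    · have : l - δ ≤ (D P N : ℝ) / N := by linarith
      rwa [le_div_iff₀ hN0] at this
    · have : (D P N : ℝ) / N ≤ l + δ := by linarith
      rwa [div_le_iff₀ hN0] at this
  -- the choice of `x`
  set x := Real.exp L₀ + K * (N₁ + 2) + 4 * K with hxd
  have hx0 : 0 < x := by positivity
  have hxL : L₀ ≤ Real.log x := by
    rw [Real.le_log_iff_exp_le hx0]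
    have : 0 < K * (N₁ + 2) := by positivity
    linarith
  obtain ⟨κ, hκ, hκ1, hκ2, hvol⟩ := hx x hx0 hxL
  have hκx : 0 < κ * x := by positivity
  have hup : κ * x ≤ K := by
    rw [hK]
    rwa [← Real.log_le_iff_le_exp hκx]
  have hlo : 4 < κ * x := by
    have h3 : Real.exp L₀ ≤ κ * x := by rwa [← Real.le_log_iff_exp_le hκx]
    have h4 : Real.exp 2 ≤ Real.exp L₀ := Real.exp_le_exp.2 hL2
    have h5 : (4 : ℝ) < Real.exp 2 := by
      have := Real.exp_one_gt_d9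
      have h6 : Real.exp 2 = Real.exp 1 * Real.exp 1 := by rw [← Real.exp_add]; norm_num
      rw [h6]
      nlinarith
    linarith
  have hκ4 : κ * 4 ≤ 1 := by
    have h3 : κ * (4 * K) ≤ κ * x := by
      apply mul_le_mul_of_nonneg_left _ hκ.le
      rw [hxd]
      have : 0 < K * (N₁ + 2) := by positivity
      have := Real.exp_pos L₀
      linarith
    have h4 : κ * 4 * K ≤ 1 * K := by linarith
    exact le_of_mul_le_mul_right h4 hK0
  obtain ⟨m, hm1, hm2, hm3⟩ := exists_m (P := P) hx0 hκ hε hlo hvol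
  have hmx : x ≤ (m : ℝ) / κ := by rw [le_div_iff₀ hκ]; linarith
  set a := ⌈(m : ℝ) / κ⌉₊ with ha
  set b := ⌊((m : ℝ) + 1) / κ⌋₊ with hb
  have ha1 : (m : ℝ) / κ ≤ a := Nat.le_ceil _
  have ha2 : (a : ℝ) < (m : ℝ) / κ + 1 := Nat.ceil_lt_add_one (by positivity)
  have hb1 : (b : ℝ) ≤ ((m : ℝ) + 1) / κ := Nat.floor_le (by positivity)
  have hb2 : ((m : ℝ) + 1) / κ < b + 1 := Nat.lt_floor_add_one _
  have hdiv : ((m : ℝ) + 1) / κ = (m : ℝ) / κ + 1 / κ := by ring
  have hκ' : 4 ≤ 1 / κ := by rw [le_div_iff₀ hκ]; linarith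
  have hba : 1 / κ - 2 ≤ (b : ℝ) - a := by linarith
  have hab : a ≤ b := by
    have : (a : ℝ) ≤ b := by linarith
    exact_mod_cast this
  have hK1 : 1 ≤ K := by
    rw [hK]
    exact Real.one_le_exp (by positivity)
  have hax : (N₁ : ℝ) + 2 ≤ a := by
    refine le_trans ?_ (hmx.trans ha1)
    rw [hxd]
    have : (N₁ : ℝ) + 2 ≤ K * (N₁ + 2) := by nlinarith [(Nat.cast_nonneg N₁ : (0 : ℝ) ≤ N₁)]
    have := Real.exp_pos L₀
    linarith
  have haN : N₁ + 2 ≤ a := by exact_mod_cast hax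
  obtain ⟨da1, da2⟩ := hden (a - 1) (by omega)
  obtain ⟨db1, db2⟩ := hden (b - 1) (by omega)
  have hDI := D_Ico (P := P) (a := a) (b := b) (by omega) hab
  have hDI' : (D P (b - 1) : ℝ) = D P (a - 1) + (((Finset.Ico a b).filter P).card : ℝ) := by
    exact_mod_cast hDI
  rw [Nat.cast_sub (by omega : 1 ≤ a)] at da1 da2
  rw [Nat.cast_sub (by omega : 1 ≤ b)] at db1 db2
  push_cast at da1 da2 db1 db2
  have hbK : (b : ℝ) ≤ 2 * K / κ := by
    refine hb1.trans ?_
    gcongr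
    linarith
  have haK : (a : ℝ) ≤ 2 * K / κ := le_trans (by exact_mod_cast hab) hbK
  have hδK : δ * (2 * K / κ) = ε / 2 / κ := by
    rw [hδ]; field_simp; norm_num
  have hδa : δ * a ≤ ε / 2 / κ := by
    rw [← hδK]; gcongr
  have hδb : δ * b ≤ ε / 2 / κ := by
    rw [← hδK]; gcongr
  set q := 1 / κ with hq
  have hq0 : 0 < q := by positivity
  have e1 : ε / 2 / κ = ε / 2 * q := by rw [hq]; ring
  have e2 : 2 * ε / κ = 2 * ε * q := by rw [hq]; ring
  rw [e1] at hδa hδb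
  rw [e2] at hm3
  by_cases hPm : P m
  · have hG : ((Finset.Ico a b).filter (fun n => ¬ P n)).card = (G P κ m).card := by
      unfold G
      congr 1
      ext n
      simp [hPm, ha, hb]
    have hsum : ((Finset.Ico a b).filter P).card + ((Finset.Ico a b).filter (fun n => ¬ P n)).card = b - a := by
      rw [Finset.card_filter_add_card_filter_not, Nat.card_Ico]
    have hsum' : (((Finset.Ico a b).filter P).card : ℝ) + (G P κ m).card = (b : ℝ) - a := by
      rw [← hG, ← Nat.cast_sub hab]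
      exact_mod_cast hsum
    have h7 : (1 - l) * ((b : ℝ) - a) ≤ 3 * ε * q := by linarith
    have h8 : (1 - l) * (q - 2) ≤ 3 * ε * q := by
      refine le_trans ?_ h7
      apply mul_le_mul_of_nonneg_left hba (by linarith)
    have h9 : 8 * ε * (q - 2) ≤ 3 * ε * q := by
      refine le_trans ?_ h8
      apply mul_le_mul_of_nonneg_right hε2 (by linarith)
    have h10 : 0 ≤ ε * (q - 4) := mul_nonneg hε.le (by linarith)
    linarith
  · have hG : ((Finset.Ico a b).filter P).card = (G P κ m).card := by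
      unfold G
      congr 1
      ext n
      simp [hPm, ha, hb]
    rw [hG] at hDI'
    have h7 : l * ((b : ℝ) - a) ≤ 3 * ε * q := by linarith
    have h8 : l * (q - 2) ≤ 3 * ε * q := by
      refine le_trans ?_ h7
      apply mul_le_mul_of_nonneg_left hba (by linarith)
    have h9 : 8 * ε * (q - 2) ≤ 3 * ε * q := by
      refine le_trans ?_ h8
      apply mul_le_mul_of_nonneg_right hε1 (by linarith)
    have h10 : 0 ≤ ε * (q - 4) := mul_nonneg hε.le (by linarith)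
    linarith

end Pool.Agent.H620.Bdry
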