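import Pool.Agent.H620.Bdry.Asymp
import Pool.Agent.H620.Bdry.Final

/-! The stage for sets whose boundary is thin by a power of `log log`, and the composition of the stages. -/

set_option autoImplicit false

namespace Pool.Agent.H620.Bdry

open Finset MeasureTheory

/-- One stage, with the numerical conditions made explicit. -/
theorem stage_gen {P : ℕ → Prop} (hP : ∀ n, 1 ≤ n → (P n ↔ P (T n))) {t R : ℕ} {x H η : ℝ}
    (ht : 160000 ≤ t) (hR1 : 1 ≤ R) (h10 : 10 * R ≤ t) (hH3 : 3 ≤ H) (hHt : H ≤ t + 3) (hη0 : 0 ≤ η)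
    (hcb' : ∀ N : ℕ, 2 ^ (t / 2) ≤ N → (cb P N : ℝ) ≤ η * N)
    (hx1 : (2 : ℝ) ^ t ≤ x) (hx2 : x < 2 ^ (t + 1)) :
    volume (Dset P x ((3 : ℝ) ^ (t / 2) / 2 ^ t)) ≤
      ENNReal.ofReal ((12 * (2 * R + 1) * H * η + (33 / √H + 3 * t / (2 * R) ^ 2)) * x) := by
  have hx0 : 0 < x := lt_of_lt_of_le (by positivity) hx1
  have hRt : R ≤ t / 2 := by omega
  have hκ : 3 ^ (t / 2 + R) ≤ 2 ^ t := by
    have h1 : (3 ^ (t / 2 + R)) ^ 10 ≤ (2 ^ t) ^ 10 := by
      rw [← pow_mul, ← pow_mul]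
      calc 3 ^ ((t / 2 + R) * 10) ≤ 3 ^ (6 * t) := Nat.pow_le_pow_right (by norm_num) (by omega)
        _ = 729 ^ t := by rw [pow_mul]; norm_num
        _ ≤ 1024 ^ t := Nat.pow_le_pow_left (by norm_num) t
        _ = 2 ^ (t * 10) := by rw [mul_comm, pow_mul]; norm_num
    exact (Nat.pow_le_pow_iff_left (by norm_num)).1 h1
  have hlowN : 2 ^ (t / 2) ≤ 3 ^ (t / 2 - R) := by
    have h1 : (2 ^ (t / 2)) ^ 10 ≤ (3 ^ (t / 2 - R)) ^ 10 := by
      rw [← pow_mul, ← pow_mul]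
      have h2 : 243 * 32 ^ t ≤ 81 ^ t := aux81 (by omega)
      have h3 : 3 ^ 5 * 2 ^ (t / 2 * 10) ≤ 3 ^ 5 * 3 ^ ((t / 2 - R) * 10) := by
        calc 3 ^ 5 * 2 ^ (t / 2 * 10) ≤ 3 ^ 5 * 2 ^ (5 * t) := by
              apply Nat.mul_le_mul_left
              exact Nat.pow_le_pow_right (by norm_num) (by omega)
          _ = 243 * 32 ^ t := by rw [pow_mul]; norm_num
          _ ≤ 81 ^ t := h2
          _ = 3 ^ (4 * t) := by rw [pow_mul]; norm_num
          _ ≤ 3 ^ (5 + (t / 2 - R) * 10) := Nat.pow_le_pow_right (by norm_num) (by omega)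
          _ = 3 ^ 5 * 3 ^ ((t / 2 - R) * 10) := by rw [pow_add]
      exact Nat.le_of_mul_le_mul_left h3 (by norm_num)
    exact (Nat.pow_le_pow_iff_left (by norm_num)).1 h1
  have hlow0 : ((2 ^ (t / 2) : ℕ) : ℝ) ≤ (3 : ℝ) ^ (t / 2 - R) / 2 ^ t * x := by
    calc ((2 ^ (t / 2) : ℕ) : ℝ) ≤ ((3 ^ (t / 2 - R) : ℕ) : ℝ) := by exact_mod_cast hlowN
      _ = (3 : ℝ) ^ (t / 2 - R) / 2 ^ t * 2 ^ t := by push_cast; field_simp
      _ ≤ (3 : ℝ) ^ (t / 2 - R) / 2 ^ t * x := by gcongr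
  have hHle : H ≤ (3 : ℝ) ^ (t / 2 - R) / 2 ^ t * x := by
    refine le_trans ?_ hlow0
    have h2 : t + 3 ≤ 2 ^ (t / 2) := by
      have h3 : t / 4 < 2 ^ (t / 4) := Nat.lt_two_pow_self
      have h4 : (t / 4) * (t / 4) ≤ 2 ^ (t / 4) * 2 ^ (t / 4) := Nat.mul_le_mul h3.le h3.le
      have h5 : 2 ^ (t / 4) * 2 ^ (t / 4) ≤ 2 ^ (t / 2) := by
        rw [← pow_add]
        exact Nat.pow_le_pow_right (by norm_num) (by omega)
      have h6 : t + 3 ≤ (t / 4) * (t / 4) := by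
        have : 40000 ≤ t / 4 := by omega
        have h7 : 40000 * (t / 4) ≤ (t / 4) * (t / 4) := Nat.mul_le_mul_right _ this
        omega
      omega
    have h2' : (t : ℝ) + 3 ≤ ((2 ^ (t / 2) : ℕ) : ℝ) := by exact_mod_cast h2
    exact hHt.trans h2'
  exact stage hP (x := x) (H := H) (η := η) (t := t) (R := R) (N₀ := 2 ^ (t / 2)) (by omega) hx1 hx2
    hH3 hR1 hRt hκ hHle hlow0 hη0 hcb'

theorem aux_t1 {s u C : ℝ} (hs : 0 < s) (hu : 0 < u) :
    12 * (5 * (s * u)) * (4 * u ^ 4) * (C * 32 / (s * u ^ 7)) = 7680 * C * (u ^ 2)⁻¹ := by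
  field_simp
  ring

theorem aux_t3 {t u : ℝ} (ht : 0 < t) (hu : 0 < u) :
    3 * t / (4 * (t * u ^ 2)) = 3 / 4 * (u ^ 2)⁻¹ := by
  field_simp

theorem aux_eta {C N s L : ℝ} (hs : 0 < s) (hL : 0 < L) :
    C * N / (s / 2 * (L / 2) ^ 4) = C * 32 / (s * L ^ 4) * N := by
  field_simp
  norm_num

/-- One stage for the thin boundary. -/
theorem stage_ll {P : ℕ → Prop} (hP : ∀ n, 1 ≤ n → (P n ↔ P (T n))) {C : ℝ} (hC : 0 ≤ C) {N₁ : ℕ}
    (hcb : ∀ N : ℕ, N₁ ≤ N → (cb P N : ℝ) ≤ C * N / (√(Real.log N) * Real.log (Real.log N) ^ 4))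
    {t : ℕ} (ht : 100000000 ≤ t) (htN : N₁ ≤ 2 ^ (t / 2)) {x : ℝ} (hx1 : (2 : ℝ) ^ t ≤ x)
    (hx2 : x < 2 ^ (t + 1)) :
    volume (Dset P x ((3 : ℝ) ^ (t / 2) / 2 ^ t)) ≤
      ENNReal.ofReal (((10000 * C + 34) * Real.log t ^ (-(8 / 7 : ℝ))) * x) := by
  have ht0 : (100000000 : ℝ) ≤ t := by exact_mod_cast ht
  have htp : (0 : ℝ) < t := by linarith
  have ht1 : (1 : ℝ) ≤ t := by linarith
  have hx0 : 0 < x := lt_of_lt_of_le (by positivity) hx1
  set L := Real.log t with hL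
  have hL1 : 10 ≤ L := by
    rw [hL, Real.le_log_iff_exp_le htp]
    have := Real.exp_one_lt_d9
    have h1 : Real.exp 10 = Real.exp 1 ^ 10 := by rw [← Real.exp_nat_mul]; norm_num
    rw [h1]
    calc Real.exp 1 ^ 10 ≤ (2.8 : ℝ) ^ 10 := by gcongr; linarith
      _ ≤ 100000000 := by norm_num
      _ ≤ t := ht0
  have hLp : 0 < L := by linarith
  have hL4 : L ≤ 4 * (t : ℝ) ^ ((1 : ℝ) / 4) := by
    have := Real.log_le_rpow_div htp.le (by norm_num : (0 : ℝ) < 1 / 4)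
    rw [hL]
    calc Real.log t ≤ (t : ℝ) ^ ((1 : ℝ) / 4) / (1 / 4) := this
      _ = 4 * (t : ℝ) ^ ((1 : ℝ) / 4) := by ring
  have ht4 : (100 : ℝ) ≤ (t : ℝ) ^ ((1 : ℝ) / 4) := by
    have h3 : ((100000000 : ℝ)) ^ ((1 : ℝ) / 4) = 100 := by
      rw [show (100000000 : ℝ) = 100 ^ (4 : ℝ) by norm_num, ← Real.rpow_mul (by norm_num)]
      norm_num
    rw [← h3]
    exact Real.rpow_le_rpow (by norm_num) ht0 (by norm_num)
  have ht4' : ((t : ℝ) ^ ((1 : ℝ) / 4)) ^ 4 = t := by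
    rw [← Real.rpow_natCast, ← Real.rpow_mul htp.le]; norm_num
  set q := (t : ℝ) ^ ((1 : ℝ) / 4) with hq
  have hsq : √(t : ℝ) = q ^ 2 := by
    rw [← ht4', show q ^ 4 = (q ^ 2) ^ 2 by ring]
    exact Real.sqrt_sq (by positivity)
  have hsp : 0 < √(t : ℝ) := Real.sqrt_pos.2 htp
  have hss : √(t : ℝ) * √(t : ℝ) = t := Real.mul_self_sqrt htp.le
  set u := L ^ ((4 : ℝ) / 7) with hu
  have hu1 : 1 ≤ u := Real.one_le_rpow (by linarith) (by norm_num)
  have huL : u ≤ L := by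
    calc u ≤ L ^ (1 : ℝ) := Real.rpow_le_rpow_of_exponent_le (by linarith) (by norm_num)
      _ = L := Real.rpow_one _
  have hu4 : u ^ 4 ≤ L ^ 3 := by
    rw [hu, ← Real.rpow_natCast, ← Real.rpow_mul hLp.le, ← Real.rpow_natCast L 3]
    apply Real.rpow_le_rpow_of_exponent_le (by linarith)
    norm_num
  set R := ⌈√(t : ℝ) * u⌉₊ with hR
  set H := u ^ 4 + 3 with hH
  set η := C * 32 / (√(t : ℝ) * L ^ 4) with hη
  have p1 : 1 ≤ √(t : ℝ) * u := by
    have : 1 ≤ √(t : ℝ) := by rw [hsq]; nlinarith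
    nlinarith
  have hRl : √(t : ℝ) * u ≤ R := Nat.le_ceil _
  have hRu : (R : ℝ) < √(t : ℝ) * u + 1 := Nat.ceil_lt_add_one (by positivity)
  have hR1 : 1 ≤ R := by
    have : (1 : ℝ) ≤ R := p1.trans hRl
    exact_mod_cast this
  have h10 : 10 * R ≤ t := by
    have h1 : √(t : ℝ) * u ≤ q ^ 2 * (4 * q) := by
      rw [hsq]
      gcongr
      linarith
    have h2 : 80 * q ^ 3 ≤ t := by
      rw [← ht4']
      nlinarith [pow_pos (by linarith : 0 < q) 3]
    have : (10 : ℝ) * R ≤ t := by nlinarith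
    exact_mod_cast this
  have hHt : H ≤ t + 3 := by
    have h1 : L ^ 3 ≤ (4 * q) ^ 3 := by gcongr
    have h2 : (4 * q) ^ 3 ≤ t := by
      rw [← ht4']
      nlinarith [pow_pos (by linarith : 0 < q) 3]
    rw [hH]; linarith
  have hη0 : 0 ≤ η := by positivity
  have hcb' : ∀ N : ℕ, 2 ^ (t / 2) ≤ N → (cb P N : ℝ) ≤ η * N := by
    intro N hN
    refine (hcb N (htN.trans hN)).trans ?_
    have hN2 : 0 < 2 ^ (t / 2) := by positivity
    have hN0 : (0 : ℝ) < N := by exact_mod_cast (by omega : 0 < N)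
    have hlog : (t : ℝ) / 4 ≤ Real.log N := by
      have h1 : Real.log ((2 ^ (t / 2) : ℕ) : ℝ) ≤ Real.log N :=
        Real.log_le_log (by positivity) (by exact_mod_cast hN)
      rw [Nat.cast_pow, Real.log_pow] at h1
      have h2 : ((t : ℝ) - 1) / 2 ≤ ((t / 2 : ℕ) : ℝ) := by
        have : t ≤ 2 * (t / 2) + 1 := by omega
        have : (t : ℝ) ≤ 2 * ((t / 2 : ℕ) : ℝ) + 1 := by exact_mod_cast this
        linarith
      have h3 := Real.log_two_gt_d9
      have h4 : ((t : ℝ) - 1) / 2 * 0.6931471803 ≤ ((t / 2 : ℕ) : ℝ) * Real.log ((2 : ℕ) : ℝ) := by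
        push_cast
        gcongr
      linarith
    have hsl : √(t : ℝ) / 2 ≤ √(Real.log N) := by
      have : √(t : ℝ) / 2 = √((t : ℝ) / 4) := by
        rw [Real.sqrt_div htp.le, show (4 : ℝ) = 2 ^ 2 by norm_num, Real.sqrt_sq (by norm_num)]
      rw [this]
      exact Real.sqrt_le_sqrt hlog
    have hll : L / 2 ≤ Real.log (Real.log N) := by
      have h1 : Real.log ((t : ℝ) / 4) ≤ Real.log (Real.log N) := Real.log_le_log (by positivity) hlog
      rw [Real.log_div htp.ne' (by norm_num)] at h1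
      have h2 : Real.log 4 ≤ 2 := by
        have : Real.log 4 = 2 * Real.log 2 := by
          rw [show (4 : ℝ) = 2 ^ 2 by norm_num, Real.log_pow]; norm_num
        rw [this]
        have := Real.log_two_lt_d9
        linarith
      linarith
    have h5 : C * N / (√(Real.log N) * Real.log (Real.log N) ^ 4) ≤
        C * N / (√(t : ℝ) / 2 * (L / 2) ^ 4) := by
      gcongr
    exact h5.trans (le_of_eq (aux_eta hsp hLp))
  have hst := stage_gen hP (by omega) hR1 h10 (by rw [hH]; nlinarith [pow_pos (by linarith : 0 < u) 4]) hHt hη0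
    hcb' hx1 hx2
  refine hst.trans (ENNReal.ofReal_le_ofReal ?_)
  apply mul_le_mul_of_nonneg_right _ hx0.le
  -- the three terms
  set g := L ^ (-(8 / 7 : ℝ)) with hg
  have hgu : g = (u ^ 2)⁻¹ := by
    rw [hg, hu, Real.rpow_neg hLp.le, ← Real.rpow_natCast, ← Real.rpow_mul hLp.le]
    norm_num
  have hL4' : L ^ 4 = u ^ 7 := by
    rw [hu, ← Real.rpow_natCast, ← Real.rpow_natCast, ← Real.rpow_mul hLp.le]
    norm_num
  have hup : 0 < u := by linarith
  have hg0 : 0 < g := by rw [hgu]; positivity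
  have hu4' : 1 ≤ u ^ 4 := one_le_pow₀ hu1
  have t1 : 12 * (2 * (R : ℝ) + 1) * H * η ≤ 10000 * C * g := by
    have a1 : 2 * (R : ℝ) + 1 ≤ 5 * (√(t : ℝ) * u) := by linarith
    have a2 : H ≤ 4 * u ^ 4 := by rw [hH]; linarith
    calc 12 * (2 * (R : ℝ) + 1) * H * η
        ≤ 12 * (5 * (√(t : ℝ) * u)) * (4 * u ^ 4) * η := by gcongr
      _ = 7680 * C * g := by
          rw [hη, hL4', hgu]
          exact aux_t1 hsp hup
      _ ≤ 10000 * C * g := by gcongr; norm_num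
  have t2 : 33 / √H ≤ 33 * g := by
    have a1 : u ^ 2 ≤ √H := by
      apply Real.le_sqrt_of_sq_le
      rw [hH]
      nlinarith
    rw [hgu, ← div_eq_mul_inv]
    gcongr
  have t3 : 3 * (t : ℝ) / (2 * R) ^ 2 ≤ g := by
    have a1 : (t : ℝ) * u ^ 2 ≤ (R : ℝ) ^ 2 := by
      calc (t : ℝ) * u ^ 2 = (√(t : ℝ) * u) ^ 2 := by
            rw [mul_pow, Real.sq_sqrt htp.le]
        _ ≤ (R : ℝ) ^ 2 := by gcongr
    calc 3 * (t : ℝ) / (2 * R) ^ 2 ≤ 3 * t / (4 * ((t : ℝ) * u ^ 2)) := by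
          rw [mul_pow]; norm_num; gcongr
      _ = 3 / 4 * (u ^ 2)⁻¹ := aux_t3 htp hup
      _ ≤ 1 * (u ^ 2)⁻¹ := by gcongr; norm_num
      _ = g := by rw [one_mul, hgu]
  linarith

/-- One stage in terms of `log x`. -/
theorem stage_ll_log {P : ℕ → Prop} (hP : ∀ n, 1 ≤ n → (P n ↔ P (T n))) {C : ℝ} (hC : 0 ≤ C) {N₁ : ℕ}
    (hcb : ∀ N : ℕ, N₁ ≤ N → (cb P N : ℝ) ≤ C * N / (√(Real.log N) * Real.log (Real.log N) ^ 4)) :
    ∃ A L₁ : ℝ, 0 < A ∧ 10 ≤ L₁ ∧ ∀ x : ℝ, 0 < x → L₁ ≤ Real.log x → ∃ κ : ℝ, 0 < κ ∧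
      Real.log x / 2 ≤ Real.log (κ * x) ∧ Real.log (κ * x) ≤ 0.9 * Real.log x ∧
      volume (Dset P x κ) ≤ ENNReal.ofReal (A * Real.log (Real.log x) ^ (-(8 / 7 : ℝ)) * x) := by
  refine ⟨10000 * C + 34, 200000000 + 2 * N₁, by positivity, by
    have : (0 : ℝ) ≤ N₁ := Nat.cast_nonneg _
    linarith, fun x hx0 hx => ?_⟩
  have hN10 : (0 : ℝ) ≤ N₁ := Nat.cast_nonneg _
  set t := Nat.log 2 ⌊x⌋₊ with ht
  have hxbig : (200000001 : ℝ) ≤ x := by
    have := Real.add_one_le_exp (Real.log x)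
    rw [Real.exp_log hx0] at this
    linarith
  have hfl : ⌊x⌋₊ ≠ 0 := by
    have : 200000001 ≤ ⌊x⌋₊ := Nat.le_floor (by exact_mod_cast hxbig)
    omega
  have hx1 : (2 : ℝ) ^ t ≤ x := by
    have h1 : 2 ^ t ≤ ⌊x⌋₊ := Nat.pow_log_le_self 2 hfl
    have h2 : ((2 ^ t : ℕ) : ℝ) ≤ x := (Nat.cast_le.2 h1).trans (Nat.floor_le hx0.le)
    exact_mod_cast h2
  have hx2 : x < 2 ^ (t + 1) := by
    have h1 : ⌊x⌋₊ < 2 ^ (t + 1) := Nat.lt_pow_succ_log_self (by norm_num) _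
    have h2 : (⌊x⌋₊ : ℝ) + 1 ≤ ((2 ^ (t + 1) : ℕ) : ℝ) := by exact_mod_cast h1
    have h3 := Nat.lt_floor_add_one x
    push_cast at h2
    linarith
  have l2 := Real.log_two_gt_d9
  have l2' := Real.log_two_lt_d9
  have hlx1 : t * Real.log 2 ≤ Real.log x := by
    rw [← Real.log_pow]
    exact Real.log_le_log (by positivity) hx1
  have hlx2 : Real.log x ≤ (t + 1) * Real.log 2 := by
    have : Real.log x ≤ Real.log ((2 : ℝ) ^ (t + 1)) := Real.log_le_log hx0 hx2.le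
    rw [Real.log_pow] at this
    push_cast at this
    exact this
  have ht00 : (0 : ℝ) ≤ t := Nat.cast_nonneg _
  have htl : Real.log x ≤ t := by nlinarith
  have htN : 100000000 ≤ t := by
    have : (100000000 : ℝ) ≤ t := by linarith
    exact_mod_cast this
  have htN1 : N₁ ≤ 2 ^ (t / 2) := by
    have h1 : N₁ ≤ t / 2 := by
      have : (2 * N₁ : ℝ) ≤ t := by linarith
      have : 2 * N₁ ≤ t := by exact_mod_cast this
      omega
    exact h1.trans Nat.lt_two_pow_self.le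
  have hst := stage_ll hP hC hcb htN htN1 hx1 hx2
  -- log 3
  have l3 : Real.log 3 < 1.1 := by
    rw [Real.log_lt_iff_lt_exp (by norm_num)]
    have := Real.exp_one_gt_d9
    have h1 : Real.exp 1.1 = Real.exp 1 * Real.exp 0.1 := by rw [← Real.exp_add]; norm_num
    have h3 : (0.1 : ℝ) + 1 = 1.1 := by norm_num
    rw [h1]
    have h4 := Real.quadratic_le_exp_of_nonneg (by norm_num : (0 : ℝ) ≤ 0.1)
    nlinarith
  have l3' : 1 < Real.log 3 := by
    rw [Real.lt_log_iff_exp_lt (by norm_num)]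
    have := Real.exp_one_lt_d9
    linarith
  have e1 : Real.log ((3 : ℝ) ^ (t / 2) / 2 ^ t * x) =
      ((t / 2 : ℕ) : ℝ) * Real.log 3 - t * Real.log 2 + Real.log x := by
    rw [Real.log_mul (by positivity) hx0.ne', Real.log_div (by positivity) (by positivity), Real.log_pow,
      Real.log_pow]
  have h2a : ((t : ℝ) - 1) / 2 ≤ ((t / 2 : ℕ) : ℝ) := by
    have : t ≤ 2 * (t / 2) + 1 := by omega
    have : (t : ℝ) ≤ 2 * ((t / 2 : ℕ) : ℝ) + 1 := by exact_mod_cast this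
    linarith
  have h2b : ((t / 2 : ℕ) : ℝ) ≤ (t : ℝ) / 2 := Nat.cast_div_le
  have htbig : (100000000 : ℝ) ≤ t := by exact_mod_cast htN
  refine ⟨(3 : ℝ) ^ (t / 2) / 2 ^ t, by positivity, ?_, ?_, ?_⟩
  · rw [e1]
    nlinarith
  · rw [e1]
    nlinarith
  · refine hst.trans (ENNReal.ofReal_le_ofReal ?_)
    apply mul_le_mul_of_nonneg_right _ hx0.le
    apply mul_le_mul_of_nonneg_left _ (by positivity)
    have hlpos : 0 < Real.log x := by linarith
    have hllpos : 0 < Real.log (Real.log x) := Real.log_pos (by linarith)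
    have hll : Real.log (Real.log x) ≤ Real.log t := Real.log_le_log hlpos htl
    rw [Real.rpow_neg (hllpos.le.trans hll), Real.rpow_neg hllpos.le]
    apply inv_anti₀ (by positivity)
    exact Real.rpow_le_rpow hllpos.le hll (by positivity)

/-- The composition of the stages, with a potential. -/
theorem multiV {P : ℕ → Prop} {L₁ : ℝ} (e V : ℝ → ℝ) (he : ∀ L, L₁ ≤ L → 0 ≤ e L) (hV0 : ∀ L, L₁ ≤ L → 0 ≤ V L)
    (hVa : ∀ L L', L₁ ≤ L → L ≤ L' → V L' ≤ V L)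
    (hstep : ∀ L L', L₁ ≤ L' → L' ≤ 0.9 * L → e L ≤ V L' - V L)
    (htend : Filter.Tendsto V Filter.atTop (nhds 0))
    (hst : ∀ x : ℝ, 0 < x → L₁ ≤ Real.log x → ∃ κ : ℝ, 0 < κ ∧
      Real.log x / 2 ≤ Real.log (κ * x) ∧ Real.log (κ * x) ≤ 0.9 * Real.log x ∧
      volume (Dset P x κ) ≤ ENNReal.ofReal (e (Real.log x) * x)) (ε : ℝ) (hε : 0 < ε) (L₂ : ℝ) :
    ∃ L₀ : ℝ, L₂ ≤ L₀ ∧ 0 < L₀ ∧ ∀ x : ℝ, 0 < x → L₀ ≤ Real.log x → ∃ κ : ℝ, 0 < κ ∧
      L₀ ≤ Real.log (κ * x) ∧ Real.log (κ * x) ≤ 2 * L₀ ∧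
      volume (Dset P x κ) ≤ ENNReal.ofReal (ε * x) := by
  obtain ⟨L₃, hL₃⟩ := (Filter.eventually_atTop.1 (htend.eventually (ge_mem_nhds hε)))
  set L₀ := max (max L₁ L₂) (max L₃ 10) with hL₀
  have g1 : L₁ ≤ L₀ := (le_max_left _ _).trans (le_max_left _ _)
  have g2 : L₂ ≤ L₀ := (le_max_right _ _).trans (le_max_left _ _)
  have g3 : L₃ ≤ L₀ := (le_max_left _ _).trans (le_max_right _ _)
  have g4 : 10 ≤ L₀ := (le_max_right _ _).trans (le_max_right _ _)
  have hL0p : 0 < L₀ := by linarith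
  have key : ∀ k : ℕ, ∀ x : ℝ, 0 < x → L₀ ≤ Real.log x → Real.log x ≤ k → ∃ κ : ℝ, 0 < κ ∧
      L₀ ≤ Real.log (κ * x) ∧ Real.log (κ * x) ≤ 2 * L₀ ∧
      volume (Dset P x κ) ≤ ENNReal.ofReal ((V L₀ - V (Real.log x)) * x) := by
    intro k
    induction k with
    | zero =>
      intro x hx h1 h2
      push_cast at h2
      linarith
    | succ k ih =>
      intro x hx h1 h2
      have hlp : 0 < Real.log x := by linarith
      rcases le_or_gt (Real.log x) (2 * L₀) with h3 | h3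
      · refine ⟨1, one_pos, by rwa [one_mul], by rwa [one_mul], ?_⟩
        have : Dset P x 1 = ∅ := by
          ext y
          simp [Dset]
        rw [this]
        simp
      · obtain ⟨κ, hκ, a1, a2, a3⟩ := hst x hx (by linarith)
        have hκx : 0 < κ * x := mul_pos hκ hx
        obtain ⟨κ', hκ', b1, b2, b3⟩ := ih (κ * x) hκx (by linarith) (by push_cast at h2; linarith)
        refine ⟨κ' * κ, mul_pos hκ' hκ, by rwa [mul_assoc], by rwa [mul_assoc], ?_⟩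
        have hlk : L₀ ≤ Real.log (κ * x) := by linarith
        have hcomp := Dset_comp' P x κ κ' (e (Real.log x))
          (V L₀ - V (Real.log (κ * x))) hx.le hκ (he _ (by linarith))
          (by linarith [hVa L₀ _ g1 hlk]) a3 b3
        refine hcomp.trans (ENNReal.ofReal_le_ofReal ?_)
        apply mul_le_mul_of_nonneg_right _ hx.le
        linarith [hstep (Real.log x) (Real.log (κ * x)) (by linarith) a2]
  refine ⟨L₀, g2, hL0p, fun x hx h1 => ?_⟩
  obtain ⟨κ, hκ, a1, a2, a3⟩ := key ⌈Real.log x⌉₊ x hx h1 (Nat.le_ceil _)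
  refine ⟨κ, hκ, a1, a2, a3.trans (ENNReal.ofReal_le_ofReal ?_)⟩
  apply mul_le_mul_of_nonneg_right _ hx.le
  linarith [hL₃ L₀ g3, hV0 (Real.log x) (g1.trans h1)]

/-- The composition for the thin boundary. -/
theorem multi_ll {P : ℕ → Prop} {A L₁ : ℝ} (hA : 0 < A) (hL₁ : 10 ≤ L₁)
    (hst : ∀ x : ℝ, 0 < x → L₁ ≤ Real.log x → ∃ κ : ℝ, 0 < κ ∧
      Real.log x / 2 ≤ Real.log (κ * x) ∧ Real.log (κ * x) ≤ 0.9 * Real.log x ∧
      volume (Dset P x κ) ≤ ENNReal.ofReal (A * Real.log (Real.log x) ^ (-(8 / 7 : ℝ)) * x))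
    (ε : ℝ) (hε : 0 < ε) (L₂ : ℝ) :
    ∃ L₀ : ℝ, L₂ ≤ L₀ ∧ 0 < L₀ ∧ ∀ x : ℝ, 0 < x → L₀ ≤ Real.log x → ∃ κ : ℝ, 0 < κ ∧
      L₀ ≤ Real.log (κ * x) ∧ Real.log (κ * x) ≤ 2 * L₀ ∧
      volume (Dset P x κ) ≤ ENNReal.ofReal (ε * x) := by
  have hlpos : ∀ L, L₁ ≤ L → 1 < Real.log L := by
    intro L hL
    rw [Real.lt_log_iff_exp_lt (by linarith)]
    have := Real.exp_one_lt_d9
    linarith
  refine multiV (L₁ := L₁) (fun L => A * Real.log L ^ (-(8 / 7 : ℝ)))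
    (fun L => 70 * A * Real.log L ^ (-(1 / 7 : ℝ))) ?_ ?_ ?_ ?_ ?_ hst ε hε L₂
  · intro L hL
    have := hlpos L hL
    positivity
  · intro L hL
    have := hlpos L hL
    positivity
  · intro L L' h1 h2
    have h3 := hlpos L h1
    have h4 := hlpos L' (h1.trans h2)
    apply mul_le_mul_of_nonneg_left _ (by positivity)
    apply Real.rpow_le_rpow_of_nonpos (by linarith) _ (by norm_num)
    exact Real.log_le_log (by linarith) h2
  · intro L L' h1 h2
    have h3 := hlpos L' h1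
    have hLL : L₁ ≤ L := by linarith
    have h4 := hlpos L hLL
    show A * Real.log L ^ (-(8 / 7 : ℝ)) ≤
      70 * A * Real.log L' ^ (-(1 / 7 : ℝ)) - 70 * A * Real.log L ^ (-(1 / 7 : ℝ))
    set u := Real.log L with hu
    set v := Real.log L' with hv
    have hv0 : 0 < v := by linarith
    have hu0 : 0 < u := by linarith
    -- `v ≤ u - 1/10`
    have h5 : v ≤ u - 1 / 10 := by
      have h6 : v ≤ Real.log (0.9 * L) := Real.log_le_log (by linarith) h2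
      rw [Real.log_mul (by norm_num) (by linarith)] at h6
      have h7 := Real.log_le_sub_one_of_pos (by norm_num : (0 : ℝ) < 0.9)
      linarith
    -- Bernoulli
    have h8 : (1 + (1 / 70) / u) * u ^ (-(1 / 7 : ℝ)) ≤ v ^ (-(1 / 7 : ℝ)) := by
      have e1 : v ^ (-(1 / 7 : ℝ)) = Real.exp (-(1 / 7) * Real.log v) := by
        rw [Real.rpow_def_of_pos hv0]; ring_nf
      have e2 : u ^ (-(1 / 7 : ℝ)) = Real.exp (-(1 / 7) * Real.log u) := by
        rw [Real.rpow_def_of_pos hu0]; ring_nf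
      have e3 : Real.log v ≤ Real.log u - (1 / 10) / u := by
        have h9 : Real.log (v / u) ≤ v / u - 1 := Real.log_le_sub_one_of_pos (by positivity)
        rw [Real.log_div hv0.ne' hu0.ne'] at h9
        have h10 : v / u ≤ 1 - (1 / 10) / u := by
          rw [div_le_iff₀ hu0]
          have : (1 - (1 / 10) / u) * u = u - 1 / 10 := by field_simp
          rw [this]
          exact h5
        linarith
      have e4 : 1 + (1 / 70) / u ≤ Real.exp ((1 / 70) / u) := by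
        have := Real.add_one_le_exp ((1 / 70) / u)
        linarith
      rw [e1, e2]
      calc (1 + (1 / 70) / u) * Real.exp (-(1 / 7) * Real.log u)
          ≤ Real.exp ((1 / 70) / u) * Real.exp (-(1 / 7) * Real.log u) := by gcongr
        _ = Real.exp ((1 / 70) / u + -(1 / 7) * Real.log u) := by rw [Real.exp_add]
        _ ≤ Real.exp (-(1 / 7) * Real.log v) := by
            apply Real.exp_le_exp.2
            have : (1 / 70) / u = (1 / 7) * ((1 / 10) / u) := by ring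
            rw [this]
            linarith
    have h11 : u ^ (-(8 / 7 : ℝ)) = u⁻¹ * u ^ (-(1 / 7 : ℝ)) := by
      rw [← Real.rpow_neg_one, ← Real.rpow_add hu0]
      norm_num
    rw [h11]
    have h12 : (1 + (1 / 70) / u) * u ^ (-(1 / 7 : ℝ)) =
        u ^ (-(1 / 7 : ℝ)) + 1 / 70 * (u⁻¹ * u ^ (-(1 / 7 : ℝ))) := by
      field_simp
    rw [h12] at h8
    nlinarith
  · have h1 : Filter.Tendsto (fun L : ℝ => Real.log L ^ (-(1 / 7 : ℝ))) Filter.atTop (nhds 0) :=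
      (tendsto_rpow_neg_atTop (by norm_num : (0 : ℝ) < 1 / 7)).comp Real.tendsto_log_atTop
    have := h1.const_mul (70 * A)
    simpa using this

end Pool.Agent.H620.Bdry
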