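import Mathlib

/-! Parity words of the shortcut map: numbers of odd terms, offsets, block sums. -/

set_option autoImplicit false

namespace Pool.Agent.H620.Bdry

open Finset

/-- The shortcut Collatz map. -/
def T (n : ℕ) : ℕ := if n % 2 = 0 then n / 2 else (3 * n + 1) / 2

/-- The number of odd terms among the first `t` terms of the trajectory of `n`. -/
def od : ℕ → ℕ → ℕ
  | 0, _ => 0
  | t + 1, n => od t n + (T^[t] n) % 2

/-- The offset after `t` steps. -/
noncomputable def off : ℕ → ℕ → ℝ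
  | 0, _ => 0
  | t + 1, n => if (T^[t] n) % 2 = 0 then off t n / 2 else (3 * off t n + 1) / 2

theorem off_nonneg (t n : ℕ) : 0 ≤ off t n := by
  induction t with
  | zero => simp [off]
  | succ t ih =>
    unfold off
    split_ifs
    · positivity
    · positivity

theorem T_iter_formula (t n : ℕ) :
    ((T^[t] n : ℕ) : ℝ) = 3 ^ (od t n) / 2 ^ t * n + off t n := by
  induction t with
  | zero => simp [od, off]
  | succ t ih =>
    rw [Function.iterate_succ_apply']
    set m := T^[t] n with hm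
    unfold off od
    rw [← hm]
    rcases Nat.mod_two_eq_zero_or_one m with h | h
    · rw [if_pos h, h, add_zero]
      have h2 : (m : ℝ) = 2 * (T m : ℕ) := by
        have : m = 2 * T m := by unfold T; rw [if_pos h]; omega
        exact_mod_cast this
      have h3 : ((T m : ℕ) : ℝ) = (m : ℝ) / 2 := by rw [h2]; ring
      rw [h3, ih, pow_succ]
      field_simp
    · rw [if_neg (by omega), h, pow_succ, pow_succ]
      have h2 : 2 * ((T m : ℕ) : ℝ) = 3 * (m : ℝ) + 1 := by
        have : 2 * T m = 3 * m + 1 := by unfold T; rw [if_neg (by omega)]; omega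
        exact_mod_cast this
      have h3 : ((T m : ℕ) : ℝ) = (3 * (m : ℝ) + 1) / 2 := by rw [← h2]; ring
      rw [h3, ih]
      field_simp
      ring

theorem T_add_even (m k : ℕ) : T (m + 2 * k) = T m + 3 ^ (m % 2) * k := by
  unfold T
  rcases Nat.mod_two_eq_zero_or_one m with h | h
  · rw [if_pos h, if_pos (by omega), h, pow_zero]; omega
  · rw [if_neg (by omega), if_neg (by omega), h, pow_one]; omega

theorem shift (t n q : ℕ) :
    T^[t] (n + 2 ^ t * q) = T^[t] n + 3 ^ (od t n) * q ∧ od t (n + 2 ^ t * q) = od t n ∧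
      off t (n + 2 ^ t * q) = off t n := by
  induction t generalizing q with
  | zero => simp [od, off]
  | succ t ih =>
    obtain ⟨h1, h2, h3⟩ := ih (2 * q)
    have e : n + 2 ^ (t + 1) * q = n + 2 ^ t * (2 * q) := by ring
    rw [e]
    have h4 : T^[t] n + 3 ^ (od t n) * (2 * q) = T^[t] n + 2 * (3 ^ (od t n) * q) := by ring
    have h5 : (T^[t] n + 2 * (3 ^ (od t n) * q)) % 2 = T^[t] n % 2 := by omega
    refine ⟨?_, ?_, ?_⟩
    · rw [Function.iterate_succ_apply', Function.iterate_succ_apply', h1, h4, T_add_even]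
      show _ = _ + 3 ^ (od t n + (T^[t] n) % 2) * q
      rw [pow_add]; ring
    · show od t (n + 2 ^ t * (2 * q)) + (T^[t] (n + 2 ^ t * (2 * q))) % 2 = od t n + (T^[t] n) % 2
      rw [h1, h2, h4, h5]
    · show (if (T^[t] (n + 2 ^ t * (2 * q))) % 2 = 0 then off t (n + 2 ^ t * (2 * q)) / 2 else
        (3 * off t (n + 2 ^ t * (2 * q)) + 1) / 2) = _
      rw [h1, h3, h4, h5]
      rfl

/-- The two halves of a block of length `2 ^ (t + 1)`. -/
theorem block_step (F : ℕ → ℝ → ℝ) (t c : ℕ) :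
    ∑ n ∈ Ico c (c + 2 ^ (t + 1)), F (od (t + 1) n) (off (t + 1) n) =
      ∑ n ∈ Ico c (c + 2 ^ t), (F (od t n) (off t n / 2) + F (od t n + 1) ((3 * off t n + 1) / 2)) := by
  have h1 : ∑ n ∈ Ico c (c + 2 ^ (t + 1)), F (od (t + 1) n) (off (t + 1) n) =
      ∑ n ∈ Ico c (c + 2 ^ t), F (od (t + 1) n) (off (t + 1) n) +
      ∑ n ∈ Ico c (c + 2 ^ t), F (od (t + 1) (n + 2 ^ t)) (off (t + 1) (n + 2 ^ t)) := by
    have h2 : ∑ n ∈ Ico c (c + 2 ^ t), F (od (t + 1) (n + 2 ^ t)) (off (t + 1) (n + 2 ^ t)) =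
        ∑ n ∈ Ico (c + 2 ^ t) (c + 2 ^ t + 2 ^ t), F (od (t + 1) n) (off (t + 1) n) := by
      rw [← Finset.sum_Ico_add' (fun n => F (od (t + 1) n) (off (t + 1) n)) c (c + 2 ^ t) (2 ^ t)]
    have h3 : c + 2 ^ (t + 1) = c + 2 ^ t + 2 ^ t := by rw [pow_succ]; ring
    rw [h2, h3]
    exact (Finset.sum_Ico_consecutive _ (Nat.le_add_right c (2 ^ t)) (Nat.le_add_right _ _)).symm
  rw [h1, ← Finset.sum_add_distrib]
  apply Finset.sum_congr rfl
  intro n _
  obtain ⟨s1, s2, s3⟩ := shift t n 1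
  rw [mul_one, mul_one] at s1
  rw [mul_one] at s2 s3
  have hodd : (3 ^ (od t n)) % 2 = 1 := by
    rw [Nat.pow_mod]; simp
  have e1 : od (t + 1) n = od t n + (T^[t] n) % 2 := rfl
  have e2 : off (t + 1) n = if (T^[t] n) % 2 = 0 then off t n / 2 else (3 * off t n + 1) / 2 := rfl
  have e3 : od (t + 1) (n + 2 ^ t) = od t (n + 2 ^ t) + (T^[t] (n + 2 ^ t)) % 2 := rfl
  have e4 : off (t + 1) (n + 2 ^ t) = if (T^[t] (n + 2 ^ t)) % 2 = 0 then off t (n + 2 ^ t) / 2 else
    (3 * off t (n + 2 ^ t) + 1) / 2 := rfl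
  rw [e1, e2, e3, e4, s1, s2, s3]
  rcases Nat.mod_two_eq_zero_or_one (T^[t] n) with h | h
  · have h' : (T^[t] n + 3 ^ od t n) % 2 = 1 := by omega
    rw [h, h', if_pos rfl, if_neg (by omega), add_zero]
  · have h' : (T^[t] n + 3 ^ od t n) % 2 = 0 := by omega
    rw [h, h', if_neg (by omega), if_pos rfl, add_zero, add_comm]

/-- The mean value of the square root of the offset is bounded. -/
theorem sum_sqrt_off (t c : ℕ) : ∑ n ∈ Ico c (c + 2 ^ t), √(off t n) ≤ 11 * 2 ^ t := by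
  induction t with
  | zero => simp [off]
  | succ t ih =>
    rw [block_step (fun _ x => √x) t c]
    have hs2 : √2 < 1.4143 := by
      rw [Real.sqrt_lt' (by norm_num)]; norm_num
    have hs2' : (1.414 : ℝ) < √2 := by
      rw [Real.lt_sqrt (by norm_num)]; norm_num
    have hs3 : √3 < 1.7321 := by
      rw [Real.sqrt_lt' (by norm_num)]; norm_num
    have key : ∀ o : ℝ, 0 ≤ o → √(o / 2) + √((3 * o + 1) / 2) ≤ 1.933 * √o + 0.708 := by
      intro o ho
      have h1 : √(o / 2) = √o / √2 := Real.sqrt_div ho 2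
      have h2 : √((3 * o + 1) / 2) = √(3 * o + 1) / √2 := Real.sqrt_div (by positivity) 2
      have h3 : √(3 * o + 1) ≤ √3 * √o + 1 := by
        rw [← Real.sqrt_mul (by norm_num : (0 : ℝ) ≤ 3)]
        rw [Real.sqrt_le_left (by positivity)]
        have := Real.sq_sqrt (by positivity : (0 : ℝ) ≤ 3 * o)
        nlinarith [Real.sqrt_nonneg (3 * o)]
      have h0 := Real.sqrt_nonneg o
      rw [h1, h2, ← add_div, div_le_iff₀ (by positivity)]
      have h4 : √3 * √o ≤ 1.7321 * √o := mul_le_mul_of_nonneg_right hs3.le h0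
      have h5 : 1.933 * √o * 1.414 ≤ 1.933 * √o * √2 := by
        apply mul_le_mul_of_nonneg_left hs2'.le; positivity
      nlinarith
    calc ∑ n ∈ Ico c (c + 2 ^ t), (√(off t n / 2) + √((3 * off t n + 1) / 2))
        ≤ ∑ n ∈ Ico c (c + 2 ^ t), (1.933 * √(off t n) + 0.708) :=
          Finset.sum_le_sum fun n _ => key _ (off_nonneg t n)
      _ = 1.933 * ∑ n ∈ Ico c (c + 2 ^ t), √(off t n) + 0.708 * 2 ^ t := by
          rw [Finset.sum_add_distrib, ← Finset.mul_sum, Finset.sum_const, Nat.card_Ico]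
          simp [mul_comm]
      _ ≤ 1.933 * (11 * 2 ^ t) + 0.708 * 2 ^ t := by gcongr
      _ ≤ 11 * 2 ^ (t + 1) := by rw [pow_succ]; nlinarith [pow_pos (by norm_num : (0:ℝ) < 2) t]

/-- The variance of the number of odd terms. -/
theorem sum_sq_od (t c : ℕ) :
    ∑ n ∈ Ico c (c + 2 ^ t), (2 * (od t n : ℝ) - (t : ℝ)) ^ 2 = (t : ℝ) * 2 ^ t := by
  induction t with
  | zero => simp [od]
  | succ t ih =>
    have h := block_step (fun k _ => (2 * (k : ℝ) - (t + 1 : ℕ)) ^ 2) t c
    rw [h]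
    have h2 : ∀ n ∈ Ico c (c + 2 ^ t), ((2 * ((od t n : ℕ) : ℝ) - ((t + 1 : ℕ) : ℝ)) ^ 2 +
        (2 * ((od t n + 1 : ℕ) : ℝ) - ((t + 1 : ℕ) : ℝ)) ^ 2) = 2 * (2 * (od t n : ℝ) - t) ^ 2 + 2 := by
      intro n _
      push_cast
      ring
    rw [Finset.sum_congr rfl h2, Finset.sum_add_distrib, ← Finset.mul_sum, ih, Finset.sum_const,
      Nat.card_Ico]
    push_cast
    simp
    ring

/-- Few elements of a block have a large offset. -/
theorem card_off (t c : ℕ) (H : ℝ) (hH : 0 < H) :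
    (((Ico c (c + 2 ^ t)).filter (fun n => H < off t n)).card : ℝ) ≤ 11 * 2 ^ t / √H := by
  rw [le_div_iff₀ (Real.sqrt_pos.2 hH)]
  calc (((Ico c (c + 2 ^ t)).filter (fun n => H < off t n)).card : ℝ) * √H
      = ∑ n ∈ (Ico c (c + 2 ^ t)).filter (fun n => H < off t n), √H := by
        rw [Finset.sum_const, nsmul_eq_mul]
    _ ≤ ∑ n ∈ (Ico c (c + 2 ^ t)).filter (fun n => H < off t n), √(off t n) := by
        apply Finset.sum_le_sum
        intro n hn
        rw [Finset.mem_filter] at hn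
        exact Real.sqrt_le_sqrt hn.2.le
    _ ≤ ∑ n ∈ Ico c (c + 2 ^ t), √(off t n) := by
        apply Finset.sum_le_sum_of_subset_of_nonneg (Finset.filter_subset _ _)
        intro n _ _
        exact Real.sqrt_nonneg _
    _ ≤ 11 * 2 ^ t := sum_sqrt_off t c

/-- Few elements of a block have an unbalanced parity word. -/
theorem card_od (t c : ℕ) (R : ℝ) (hR : 0 < R) :
    (((Ico c (c + 2 ^ t)).filter (fun n => R ≤ |2 * (od t n : ℝ) - t|)).card : ℝ) ≤ t * 2 ^ t / R ^ 2 := by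
  rw [le_div_iff₀ (by positivity)]
  calc (((Ico c (c + 2 ^ t)).filter (fun n => R ≤ |2 * (od t n : ℝ) - t|)).card : ℝ) * R ^ 2
      = ∑ n ∈ (Ico c (c + 2 ^ t)).filter (fun n => R ≤ |2 * (od t n : ℝ) - t|), R ^ 2 := by
        rw [Finset.sum_const, nsmul_eq_mul]
    _ ≤ ∑ n ∈ (Ico c (c + 2 ^ t)).filter (fun n => R ≤ |2 * (od t n : ℝ) - t|),
          (2 * (od t n : ℝ) - t) ^ 2 := by
        apply Finset.sum_le_sum
        intro n hn
        rw [Finset.mem_filter] at hn
        rw [← sq_abs (2 * (od t n : ℝ) - t)]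
        exact pow_le_pow_left₀ hR.le hn.2 2
    _ ≤ ∑ n ∈ Ico c (c + 2 ^ t), (2 * (od t n : ℝ) - t) ^ 2 := by
        apply Finset.sum_le_sum_of_subset_of_nonneg (Finset.filter_subset _ _)
        intro n _ _
        positivity
    _ = t * 2 ^ t := sum_sq_od t c

end Pool.Agent.H620.Bdry
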