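import Pool.Agent.H620.Bdry.Asymp2
import Pool.Graph.R_seed8.H499R2.NDCor
import Pool.Graph.R_pool_sql_team_seeded_3997aac3.Q158.Pair.Main

/-! The boundary of a nontrivial invariant set: lower and upper bounds. -/

set_option autoImplicit false

namespace Pool.Agent.H620.Bdry

open Finset Filter Topology

/-- The boundary of a nontrivial invariant set is not thin. -/
theorem not_thin {P : ℕ → Prop} (hP : ∀ n, 1 ≤ n → (P n ↔ P (T n))) (hex : ∃ n, 1 ≤ n ∧ P n)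
    (hex' : ∃ n, 1 ≤ n ∧ ¬ P n) (K : ℝ)
    (h : ∀ᶠ N : ℕ in atTop, (cb P N : ℝ) ≤ K * (N / (√(Real.log N) * Real.log (Real.log N) ^ 4))) : False := by
  obtain ⟨l, hl0, hl1, hl, hlp, hlo⟩ := Pool.Agent.H499R2.ND.nat_density (P := P) hP
  have hl0' : 0 < l := hlp.2 hex
  have hl1' : l < 1 := by
    rcases hl1.lt_or_eq with h | h
    · exact h
    · obtain ⟨n, hn, hn'⟩ := hex'
      exact absurd (hlo.1 h n hn) hn'
  obtain ⟨N₁, hN₁⟩ := eventually_atTop.1 h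
  have hcb : ∀ N : ℕ, max N₁ 16 ≤ N → (cb P N : ℝ) ≤
      max K 0 * N / (√(Real.log N) * Real.log (Real.log N) ^ 4) := by
    intro N hN
    refine (hN₁ N ((le_max_left _ _).trans hN)).trans ?_
    rw [mul_div_assoc]
    apply mul_le_mul_of_nonneg_right (le_max_left _ _)
    positivity
  obtain ⟨A, L₁, hA, hL₁, hst⟩ := stage_ll_log hP (le_max_right K 0) hcb
  exact contra hl0' hl1' hl (fun ε hε L₂ => multi_ll hA hL₁ hst ε hε L₂)

/-- The count of the boundary points `n ≥ 1`. -/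
theorem cb_le {P : ℕ → Prop} (N : ℕ) :
    cb P N ≤ {n : ℕ | 1 ≤ n ∧ n ≤ N ∧ ¬ (P n ↔ P (n + 1))}.ncard + 1 := by
  have hfin : {n : ℕ | 1 ≤ n ∧ n ≤ N ∧ ¬ (P n ↔ P (n + 1))}.Finite :=
    (Set.finite_Iic N).subset fun n hn => hn.2.1
  have hsub : {n : ℕ | n ≤ N ∧ n ∈ Bd P} ⊆ insert 0 {n : ℕ | 1 ≤ n ∧ n ≤ N ∧ ¬ (P n ↔ P (n + 1))} := by
    rintro n ⟨h1, h2⟩
    rcases Nat.eq_zero_or_pos n with h | h
    · left; exact h
    · right; exact ⟨h, h1, h2⟩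
  exact (Set.ncard_le_ncard hsub (hfin.insert 0)).trans (Set.ncard_insert_le _ _)

theorem Tint_nat {n : ℕ} : Pool.Agent.Q158.Pair.T (n : ℤ) = ((T n : ℕ) : ℤ) := by
  unfold Pool.Agent.Q158.Pair.T T
  split_ifs <;> push_cast <;> omega

/-- The upper bound. -/
theorem upper_bound : ∃ K : ℝ, ∀ P : ℕ → Prop, (∀ n, 1 ≤ n → (P n ↔ P (T n))) → ∀ N : ℕ, 2 ≤ N →
    ({n : ℕ | 1 ≤ n ∧ n ≤ N ∧ ¬ (P n ↔ P (n + 1))}.ncard : ℝ) ≤ K * (N / √(Real.log N)) := by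
  obtain ⟨C, hC, h⟩ := Pool.Agent.Q158.Pair.invariant
  refine ⟨C * (1 + √(Real.log 3)), fun P hP N hN => ?_⟩
  set S : Set ℤ := {x | ∃ n : ℕ, 1 ≤ n ∧ x = n ∧ P n} with hS
  have hmem : ∀ n : ℕ, 1 ≤ n → ((n : ℤ) ∈ S ↔ P n) := by
    intro n hn
    constructor
    · rintro ⟨m, hm, h1, h2⟩
      have : n = m := by exact_mod_cast h1
      rwa [this]
    · intro h
      exact ⟨n, hn, rfl, h⟩
  have hinv : ∀ x : ℤ, Pool.Agent.Q158.Pair.T x ∈ S ↔ x ∈ S := by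
    intro x
    rcases le_or_gt x 0 with hx | hx
    · have h1 : x ∉ S := by
        rintro ⟨n, hn, h1, _⟩
        omega
      have h2 : Pool.Agent.Q158.Pair.T x ∉ S := by
        rintro ⟨n, hn, h1, _⟩
        unfold Pool.Agent.Q158.Pair.T at h1
        split_ifs at h1 <;> omega
      exact ⟨fun h => absurd h h2, fun h => absurd h h1⟩
    · obtain ⟨n, rfl⟩ : ∃ n : ℕ, x = n := ⟨x.toNat, by omega⟩
      have hn : 1 ≤ n := by omega
      rw [Tint_nat, hmem _ (T_pos hn), hmem _ hn]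
      exact (hP n hn).symm
  have h1 := h S hinv 0 0 0 0 0 1 1 N hN
  have hset : {n : ℤ | 1 ≤ n ∧ n < 1 + (N : ℤ) ∧ ¬ ((2 : ℤ) ^ 0 * 3 ^ 0 * n + 0 ∈ S ↔ (2 : ℤ) ^ 0 * 3 ^ 0 * n + 1 ∈ S)} =
      (fun n : ℕ => (n : ℤ)) '' {n : ℕ | 1 ≤ n ∧ n ≤ N ∧ ¬ (P n ↔ P (n + 1))} := by
    ext x
    simp only [pow_zero, one_mul, add_zero, Set.mem_setOf_eq, Set.mem_image]
    constructor
    · rintro ⟨h2, h3, h4⟩
      obtain ⟨n, rfl⟩ : ∃ n : ℕ, x = n := ⟨x.toNat, by omega⟩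
      refine ⟨n, ⟨by omega, by omega, ?_⟩, rfl⟩
      have e := hmem (n + 1) (by omega)
      push_cast at e
      rw [hmem n (by omega), e] at h4
      exact h4
    · rintro ⟨n, ⟨h2, h3, h4⟩, rfl⟩
      refine ⟨by omega, by omega, ?_⟩
      have e := hmem (n + 1) (by omega)
      push_cast at e
      rw [hmem n (by omega), e]
      exact h4
  have hcard : {n : ℤ | 1 ≤ n ∧ n < 1 + (N : ℤ) ∧ ¬ ((2 : ℤ) ^ 0 * 3 ^ 0 * n + 0 ∈ S ↔ (2 : ℤ) ^ 0 * 3 ^ 0 * n + 1 ∈ S)}.ncard =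
      {n : ℕ | 1 ≤ n ∧ n ≤ N ∧ ¬ (P n ↔ P (n + 1))}.ncard := by
    rw [hset]
    exact Set.ncard_image_of_injective _ Nat.cast_injective
  rw [hcard] at h1
  refine h1.trans (le_of_eq ?_)
  norm_num
  ring

end Pool.Agent.H620.Bdry
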