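import Pool.Agent.H620.Bdry.Basic

/-! The boundary of a set of integers, and the measure of the set of reals near the boundary. -/

set_option autoImplicit false

namespace Pool.Agent.H620.Bdry

open Finset MeasureTheory

/-- The property of the integral part. -/
def W (P : ℕ → Prop) (y : ℝ) : Prop := P ⌊y⌋₊

/-- The boundary. -/
def Bd (P : ℕ → Prop) : Set ℕ := {n | ¬ (P n ↔ P (n + 1))}

/-- The number of boundary points up to `N`. -/
noncomputable def cb (P : ℕ → Prop) (N : ℕ) : ℕ := {n : ℕ | n ≤ N ∧ n ∈ Bd P}.ncard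

/-- The reals of `[x, 2x]` at which `P` changes under multiplication by `κ`. -/
def Dset (P : ℕ → Prop) (x κ : ℝ) : Set ℝ := {y | x ≤ y ∧ y ≤ 2 * x ∧ ¬ (W P y ↔ W P (κ * y))}

/-- The reals `y` of `[x, 2x]` such that `l y` is near the boundary. -/
def Near (P : ℕ → Prop) (l H x : ℝ) : Set ℝ :=
  {y | x ≤ y ∧ y ≤ 2 * x ∧ ∃ m : ℕ, m ∈ Bd P ∧ |l * y - m| ≤ H}

theorem vol_Near (P : ℕ → Prop) (l H x : ℝ) (hl : 0 < l) (hH : 0 ≤ H) :
    volume (Near P l H x) ≤ ENNReal.ofReal (cb P ⌊2 * l * x + H⌋₊ * (2 * H / l)) := by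
  classical
  set N := ⌊2 * l * x + H⌋₊ with hN
  have hfin : {n : ℕ | n ≤ N ∧ n ∈ Bd P}.Finite := (Set.finite_Iic N).subset fun n hn => hn.1
  have hsub : Near P l H x ⊆ ⋃ m ∈ hfin.toFinset, Set.Icc (((m : ℝ) - H) / l) (((m : ℝ) + H) / l) := by
    rintro y ⟨h1, h2, m, hm, h3⟩
    rw [abs_le] at h3
    rw [Set.mem_iUnion₂]
    refine ⟨m, ?_, ?_⟩
    · rw [Set.Finite.mem_toFinset]
      refine ⟨?_, hm⟩
      apply Nat.le_floor
      nlinarith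
    · rw [Set.mem_Icc, div_le_iff₀ hl, le_div_iff₀ hl]
      constructor <;> nlinarith
  calc volume (Near P l H x)
      ≤ volume (⋃ m ∈ hfin.toFinset, Set.Icc (((m : ℝ) - H) / l) (((m : ℝ) + H) / l)) := measure_mono hsub
    _ ≤ ∑ m ∈ hfin.toFinset, volume (Set.Icc (((m : ℝ) - H) / l) (((m : ℝ) + H) / l)) :=
        measure_biUnion_finset_le _ _
    _ = ∑ m ∈ hfin.toFinset, ENNReal.ofReal (2 * H / l) := by
        apply Finset.sum_congr rfl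
        intro m _
        rw [Real.volume_Icc]
        congr 1
        field_simp
        ring
    _ = ENNReal.ofReal (cb P N * (2 * H / l)) := by
        rw [Finset.sum_const, ← Set.ncard_eq_toFinset_card _ hfin, nsmul_eq_mul,
          ENNReal.ofReal_mul (by positivity), ENNReal.ofReal_natCast]
        rfl

theorem const_of_far {P : ℕ → Prop} {z H : ℝ} (hz : ∀ m : ℕ, m ∈ Bd P → ¬ |z - m| ≤ H)
    {p q : ℕ} (hp : z - H ≤ p) (hq : (q : ℝ) ≤ z + H) (hpq : p ≤ q) : P p ↔ P q := by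
  induction q, hpq using Nat.le_induction with
  | base => rfl
  | succ k hk ih =>
    have hk1 : (k : ℝ) ≤ z + H := by push_cast at hq; linarith
    have hk2 : z - H ≤ (k : ℝ) := hp.trans (by exact_mod_cast hk)
    rw [ih hk1]
    by_contra hcon
    exact hz k hcon (by rw [abs_le]; constructor <;> linarith)

theorem const_of_far' {P : ℕ → Prop} {z H : ℝ} (hz : ∀ m : ℕ, m ∈ Bd P → ¬ |z - m| ≤ H)
    {p q : ℕ} (hp : z - H ≤ p) (hp' : (p : ℝ) ≤ z + H) (hq' : z - H ≤ q) (hq : (q : ℝ) ≤ z + H) :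
    P p ↔ P q := by
  rcases le_total p q with h | h
  · exact const_of_far hz hp hq h
  · exact (const_of_far hz hq' hp' h).symm

theorem Dset_comp (P : ℕ → Prop) (x κ κ' : ℝ) (hκ : 0 < κ) :
    volume (Dset P x (κ' * κ)) ≤ volume (Dset P x κ) + ENNReal.ofReal κ⁻¹ * volume (Dset P (κ * x) κ') := by
  have hsub : Dset P x (κ' * κ) ⊆ Dset P x κ ∪ (fun y => κ * y) ⁻¹' (Dset P (κ * x) κ') := by
    rintro y ⟨h1, h2, h3⟩
    by_cases h : W P y ↔ W P (κ * y)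
    · right
      refine ⟨mul_le_mul_of_nonneg_left h1 hκ.le, ?_, ?_⟩
      · have := mul_le_mul_of_nonneg_left h2 hκ.le
        show κ * y ≤ 2 * (κ * x)
        linarith
      · rw [h] at h3
        show ¬ (W P (κ * y) ↔ W P (κ' * (κ * y)))
        rwa [← mul_assoc]
    · left
      exact ⟨h1, h2, h⟩
  calc volume (Dset P x (κ' * κ)) ≤ volume (Dset P x κ ∪ (fun y => κ * y) ⁻¹' (Dset P (κ * x) κ')) :=
        measure_mono hsub
    _ ≤ volume (Dset P x κ) + volume ((fun y => κ * y) ⁻¹' (Dset P (κ * x) κ')) := measure_union_le _ _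
    _ = _ := by
        rw [Real.volume_preimage_mul_left hκ.ne', abs_of_pos (inv_pos.2 hκ)]

theorem Dset_comp' (P : ℕ → Prop) (x κ κ' e e' : ℝ) (hx : 0 ≤ x) (hκ : 0 < κ) (he : 0 ≤ e) (he' : 0 ≤ e')
    (h : volume (Dset P x κ) ≤ ENNReal.ofReal (e * x))
    (h' : volume (Dset P (κ * x) κ') ≤ ENNReal.ofReal (e' * (κ * x))) :
    volume (Dset P x (κ' * κ)) ≤ ENNReal.ofReal ((e + e') * x) := by
  calc volume (Dset P x (κ' * κ))
      ≤ volume (Dset P x κ) + ENNReal.ofReal κ⁻¹ * volume (Dset P (κ * x) κ') := Dset_comp P x κ κ' hκ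
    _ ≤ ENNReal.ofReal (e * x) + ENNReal.ofReal κ⁻¹ * ENNReal.ofReal (e' * (κ * x)) := by gcongr
    _ = ENNReal.ofReal ((e + e') * x) := by
        rw [← ENNReal.ofReal_mul (by positivity), ← ENNReal.ofReal_add (by positivity) (by positivity)]
        congr 1
        field_simp

/-- The measure of the reals with integral part in a given finite set. -/
theorem vol_floor (B : Finset ℕ) (x : ℝ) :
    volume {y : ℝ | 0 ≤ y ∧ ⌊y⌋₊ ∈ B} ≤ ENNReal.ofReal B.card := by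
  have hsub : {y : ℝ | 0 ≤ y ∧ ⌊y⌋₊ ∈ B} ⊆ ⋃ m ∈ B, Set.Icc (m : ℝ) (m + 1) := by
    rintro y ⟨h0, h1⟩
    rw [Set.mem_iUnion₂]
    exact ⟨_, h1, Nat.floor_le h0, (Nat.lt_floor_add_one y).le⟩
  calc volume {y : ℝ | 0 ≤ y ∧ ⌊y⌋₊ ∈ B} ≤ volume (⋃ m ∈ B, Set.Icc (m : ℝ) (m + 1)) := measure_mono hsub
    _ ≤ ∑ m ∈ B, volume (Set.Icc (m : ℝ) (m + 1)) := measure_biUnion_finset_le _ _
    _ = ENNReal.ofReal B.card := by
        have : ∀ m ∈ B, volume (Set.Icc (m : ℝ) (m + 1)) = 1 := by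
          intro m _
          rw [Real.volume_Icc]; simp
        rw [Finset.sum_congr rfl this]
        simp

/-- If a property holds for few elements of the blocks of length `2 ^ t`, it holds for few integral parts
of the reals of `[x, 2x]`. -/
theorem vol_blocks (B : Set ℕ) [DecidablePred (· ∈ B)] (t : ℕ) (x E : ℝ) (ht : 1 ≤ t) (hx1 : (2 : ℝ) ^ t ≤ x)
    (hx2 : x < 2 ^ (t + 1))
    (hB : ∀ c : ℕ, (((Ico c (c + 2 ^ t)).filter (· ∈ B)).card : ℝ) ≤ E * 2 ^ t) :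
    volume {y : ℝ | x ≤ y ∧ y ≤ 2 * x ∧ ⌊y⌋₊ ∈ B} ≤ ENNReal.ofReal (3 * E * x) := by
  have hE : 0 ≤ E := by
    have h := (Nat.cast_nonneg _).trans (hB 0)
    by_contra hcon
    push Not at hcon
    have : E * 2 ^ t < 0 := mul_neg_of_neg_of_pos hcon (by positivity)
    linarith
  have hx0 : 0 < x := lt_of_lt_of_le (by positivity) hx1
  set c := ⌊x⌋₊ with hc
  set F : Finset ℕ := ((Ico c (c + 2 ^ t)).filter (· ∈ B)) ∪
    (((Ico (c + 2 ^ t) (c + 2 ^ t + 2 ^ t)).filter (· ∈ B)) ∪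
      ((Ico (c + 2 ^ t + 2 ^ t) (c + 2 ^ t + 2 ^ t + 2 ^ t)).filter (· ∈ B))) with hF
  have h2t : (2 : ℝ) ≤ 2 ^ t := by
    calc (2 : ℝ) = 2 ^ 1 := by norm_num
      _ ≤ 2 ^ t := pow_le_pow_right₀ (by norm_num) ht
  have hsub : {y : ℝ | x ≤ y ∧ y ≤ 2 * x ∧ ⌊y⌋₊ ∈ B} ⊆ {y : ℝ | 0 ≤ y ∧ ⌊y⌋₊ ∈ F} := by
    rintro y ⟨h1, h2, h3⟩
    refine ⟨hx0.le.trans h1, ?_⟩
    have h4 : c ≤ ⌊y⌋₊ := Nat.floor_mono h1
    have h5 : ⌊y⌋₊ < c + 2 ^ t + 2 ^ t + 2 ^ t := by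
      rw [Nat.floor_lt (hx0.le.trans h1)]
      have h6 : x < c + 1 := Nat.lt_floor_add_one x
      push_cast
      rw [pow_succ] at hx2
      linarith
    rw [hF]
    simp only [Finset.mem_union, Finset.mem_filter, Finset.mem_Ico]
    have h7 : ⌊y⌋₊ ∈ B := h3
    by_cases g1 : ⌊y⌋₊ < c + 2 ^ t
    · left; exact ⟨⟨h4, g1⟩, h7⟩
    · by_cases g2 : ⌊y⌋₊ < c + 2 ^ t + 2 ^ t
      · right; left; exact ⟨⟨by omega, g2⟩, h7⟩
      · right; right; exact ⟨⟨by omega, h5⟩, h7⟩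
  have hcard : (F.card : ℝ) ≤ 3 * E * x := by
    have h1 := hB c
    have h2 := hB (c + 2 ^ t)
    have h3 := hB (c + 2 ^ t + 2 ^ t)
    have h4 : (F.card : ℝ) ≤ (((Ico c (c + 2 ^ t)).filter (· ∈ B)).card : ℝ) +
        ((((Ico (c + 2 ^ t) (c + 2 ^ t + 2 ^ t)).filter (· ∈ B)).card : ℝ) +
        (((Ico (c + 2 ^ t + 2 ^ t) (c + 2 ^ t + 2 ^ t + 2 ^ t)).filter (· ∈ B)).card : ℝ)) := by
      have a1 := Finset.card_union_le ((Ico c (c + 2 ^ t)).filter (· ∈ B))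
        (((Ico (c + 2 ^ t) (c + 2 ^ t + 2 ^ t)).filter (· ∈ B)) ∪
        ((Ico (c + 2 ^ t + 2 ^ t) (c + 2 ^ t + 2 ^ t + 2 ^ t)).filter (· ∈ B)))
      have a2 := Finset.card_union_le ((Ico (c + 2 ^ t) (c + 2 ^ t + 2 ^ t)).filter (· ∈ B))
        ((Ico (c + 2 ^ t + 2 ^ t) (c + 2 ^ t + 2 ^ t + 2 ^ t)).filter (· ∈ B))
      exact_mod_cast a1.trans (Nat.add_le_add_left a2 _)
    have h5 : E * 2 ^ t ≤ E * x := mul_le_mul_of_nonneg_left hx1 hE
    linarith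
  calc volume {y : ℝ | x ≤ y ∧ y ≤ 2 * x ∧ ⌊y⌋₊ ∈ B} ≤ volume {y : ℝ | 0 ≤ y ∧ ⌊y⌋₊ ∈ F} := measure_mono hsub
    _ ≤ ENNReal.ofReal F.card := vol_floor F x
    _ ≤ ENNReal.ofReal (3 * E * x) := ENNReal.ofReal_le_ofReal hcard

end Pool.Agent.H620.Bdry
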