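import Pool.Agent.H620.Bdry.Meas

/-! One stage: `P` at `y` and at `3 ^ (t / 2) / 2 ^ t * y`. -/

set_option autoImplicit false

namespace Pool.Agent.H620.Bdry

open Finset MeasureTheory

theorem T_pos {n : ℕ} (hn : 1 ≤ n) : 1 ≤ T n := by
  unfold T; split_ifs <;> omega

theorem iter_pos {n : ℕ} (hn : 1 ≤ n) (t : ℕ) : 1 ≤ T^[t] n := by
  induction t with
  | zero => exact hn
  | succ t ih => rw [Function.iterate_succ_apply']; exact T_pos ih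

theorem inv_iter {P : ℕ → Prop} (hP : ∀ n, 1 ≤ n → (P n ↔ P (T n))) {n : ℕ} (hn : 1 ≤ n) (t : ℕ) :
    P n ↔ P (T^[t] n) := by
  induction t with
  | zero => rfl
  | succ t ih =>
    rw [Function.iterate_succ_apply', ih]
    exact hP _ (iter_pos hn t)

theorem three_step {P : ℕ → Prop} (hP : ∀ n, 1 ≤ n → (P n ↔ P (T n))) {z H : ℝ} (hz : 1 ≤ z) (hH : 3 ≤ H)
    (h2 : ∀ m : ℕ, m ∈ Bd P → ¬ |2 * z - m| ≤ H) (h3 : ∀ m : ℕ, m ∈ Bd P → ¬ |3 * z - m| ≤ H) :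
    W P z ↔ W P (3 * z) := by
  have hz0 : 0 ≤ z := by linarith
  set v := ⌊z⌋₊ with hv
  have hv1 : 1 ≤ v := Nat.le_floor (by exact_mod_cast hz)
  have hv2 : (v : ℝ) ≤ z := Nat.floor_le hz0
  have hv3 : z < v + 1 := Nat.lt_floor_add_one z
  have e1 : P v ↔ P (2 * v) := by
    have h := hP (2 * v) (by omega)
    have : T (2 * v) = v := by unfold T; rw [if_pos (by omega)]; omega
    rw [this] at h
    exact h.symm
  have e2 : P (2 * v) ↔ P (2 * v + 1) := by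
    apply const_of_far' h2 <;> push_cast <;> linarith
  have e3 : P (2 * v + 1) ↔ P (3 * v + 2) := by
    have h := hP (2 * v + 1) (by omega)
    have : T (2 * v + 1) = 3 * v + 2 := by unfold T; rw [if_neg (by omega)]; omega
    rw [this] at h
    exact h
  have h30 : (0 : ℝ) ≤ 3 * z := by positivity
  have h4 : ((⌊3 * z⌋₊ : ℕ) : ℝ) ≤ 3 * z := Nat.floor_le h30
  have h5 : 3 * z < (⌊3 * z⌋₊ : ℕ) + 1 := Nat.lt_floor_add_one _
  have e4 : P (3 * v + 2) ↔ P ⌊3 * z⌋₊ := by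
    apply const_of_far' h3 <;> push_cast <;> linarith
  show P v ↔ P ⌊3 * z⌋₊
  rw [e1, e2, e3, e4]

/-- The transfer for one real number. -/
theorem transfer {P : ℕ → Prop} (hP : ∀ n, 1 ≤ n → (P n ↔ P (T n))) {x y H : ℝ} {t R : ℕ}
    (hx : 1 ≤ x) (hH : 3 ≤ H) (hRt : R ≤ t / 2) (hκ : 3 ^ (t / 2 + R) ≤ 2 ^ t)
    (hlow : 1 ≤ (3 : ℝ) ^ (t / 2 - R) / 2 ^ t * x)
    (hy1 : x ≤ y) (hy2 : y ≤ 2 * x)
    (hn1 : ∀ i, t / 2 - R ≤ i → i ≤ t / 2 + R → y ∉ Near P ((3 : ℝ) ^ i / 2 ^ t) H x)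
    (hn2 : ∀ i, t / 2 - R ≤ i → i ≤ t / 2 + R → y ∉ Near P (2 * ((3 : ℝ) ^ i / 2 ^ t)) H x)
    (ho : off t ⌊y⌋₊ ≤ H) (ha : |2 * (od t ⌊y⌋₊ : ℝ) - t| < 2 * R) :
    W P y ↔ W P ((3 : ℝ) ^ (t / 2) / 2 ^ t * y) := by
  have hy0 : 0 ≤ y := by linarith
  set n := ⌊y⌋₊ with hn
  have hn1' : 1 ≤ n := Nat.le_floor (by exact_mod_cast hx.trans hy1)
  have hny : (n : ℝ) ≤ y := Nat.floor_le hy0
  have hny' : y < n + 1 := Nat.lt_floor_add_one y
  -- far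
  have far1 : ∀ i, t / 2 - R ≤ i → i ≤ t / 2 + R → ∀ m : ℕ, m ∈ Bd P → ¬ |(3 : ℝ) ^ i / 2 ^ t * y - m| ≤ H := by
    intro i h1 h2 m hm hc
    exact hn1 i h1 h2 ⟨hy1, hy2, m, hm, hc⟩
  have far2 : ∀ i, t / 2 - R ≤ i → i ≤ t / 2 + R → ∀ m : ℕ, m ∈ Bd P →
      ¬ |2 * ((3 : ℝ) ^ i / 2 ^ t * y) - m| ≤ H := by
    intro i h1 h2 m hm hc
    exact hn2 i h1 h2 ⟨hy1, hy2, m, hm, by rwa [mul_assoc]⟩
  -- chain
  have hbig : ∀ i, t / 2 - R ≤ i → 1 ≤ (3 : ℝ) ^ i / 2 ^ t * y := by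
    intro i hi
    calc (1 : ℝ) ≤ (3 : ℝ) ^ (t / 2 - R) / 2 ^ t * x := hlow
      _ ≤ (3 : ℝ) ^ i / 2 ^ t * y := by
        gcongr
        norm_num
  have chain : ∀ j, t / 2 - R + j ≤ t / 2 + R →
      (W P ((3 : ℝ) ^ (t / 2 - R + j) / 2 ^ t * y) ↔ W P ((3 : ℝ) ^ (t / 2 - R) / 2 ^ t * y)) := by
    intro j
    induction j with
    | zero => intro _; rw [add_zero]
    | succ j ih =>
      intro hj
      rw [← ih (by omega)]
      have e : (3 : ℝ) ^ (t / 2 - R + (j + 1)) / 2 ^ t * y = 3 * ((3 : ℝ) ^ (t / 2 - R + j) / 2 ^ t * y) := by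
        rw [← add_assoc, pow_succ]; ring
      rw [e]
      apply (three_step hP (hbig _ (by omega)) hH (far2 _ (by omega) (by omega)) _).symm
      intro m hm
      rw [← e]
      exact far1 _ (by omega) (by omega) m hm
  have chain' : ∀ i, t / 2 - R ≤ i → i ≤ t / 2 + R →
      (W P ((3 : ℝ) ^ i / 2 ^ t * y) ↔ W P ((3 : ℝ) ^ (t / 2 - R) / 2 ^ t * y)) := by
    intro i h1 h2
    have := chain (i - (t / 2 - R)) (by omega)
    rwa [Nat.add_sub_cancel' h1] at this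
  -- the range of the number of odd terms
  have ha1 : t / 2 - R ≤ od t n := by
    by_contra hcon
    push Not at hcon
    have h1 : 2 * od t n + 2 * R ≤ t := by omega
    have h2 : 2 * (od t n : ℝ) + 2 * R ≤ t := by exact_mod_cast h1
    rw [abs_lt] at ha
    linarith [ha.1]
  have ha2 : od t n ≤ t / 2 + R := by
    by_contra hcon
    push Not at hcon
    have h1 : t + 2 * R ≤ 2 * od t n := by omega
    have h2 : (t : ℝ) + 2 * R ≤ 2 * od t n := by exact_mod_cast h1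
    rw [abs_lt] at ha
    linarith [ha.2]
  have hka : (3 : ℝ) ^ (od t n) / 2 ^ t ≤ 1 := by
    rw [div_le_one (by positivity)]
    have h1 : (3 : ℝ) ^ (t / 2 + R) ≤ 2 ^ t := by exact_mod_cast hκ
    exact (pow_le_pow_right₀ (by norm_num) ha2).trans h1
  have hka0 : (0 : ℝ) < (3 : ℝ) ^ (od t n) / 2 ^ t := by positivity
  have e1 : W P y ↔ P (T^[t] n) := inv_iter hP hn1' t
  have e2 : P (T^[t] n) ↔ W P ((3 : ℝ) ^ (od t n) / 2 ^ t * y) := by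
    have hf := T_iter_formula t n
    have ho0 := off_nonneg t n
    have hz0 : 0 ≤ (3 : ℝ) ^ (od t n) / 2 ^ t * y := by positivity
    have h6 := Nat.floor_le hz0
    have h7 := Nat.lt_floor_add_one ((3 : ℝ) ^ (od t n) / 2 ^ t * y)
    have h8 : (3 : ℝ) ^ (od t n) / 2 ^ t * n ≤ (3 : ℝ) ^ (od t n) / 2 ^ t * y :=
      mul_le_mul_of_nonneg_left hny hka0.le
    have h9 : (3 : ℝ) ^ (od t n) / 2 ^ t * y ≤ (3 : ℝ) ^ (od t n) / 2 ^ t * n + 1 := by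
      calc (3 : ℝ) ^ (od t n) / 2 ^ t * y ≤ (3 : ℝ) ^ (od t n) / 2 ^ t * (n + 1) :=
            mul_le_mul_of_nonneg_left hny'.le hka0.le
        _ = (3 : ℝ) ^ (od t n) / 2 ^ t * n + (3 : ℝ) ^ (od t n) / 2 ^ t := by ring
        _ ≤ _ := by linarith
    apply const_of_far' (far1 _ ha1 ha2)
    · rw [hf]; linarith
    · rw [hf]; linarith
    · linarith
    · linarith
  rw [e1, e2, chain' _ ha1 ha2, ← chain' (t / 2) (by omega) (by omega)]

theorem vol_Near' {P : ℕ → Prop} {l H x η : ℝ} {N₀ : ℕ} (hl : 0 < l) (hH : 1 ≤ H) (hη : 0 ≤ η)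
    (hcb : ∀ N : ℕ, N₀ ≤ N → (cb P N : ℝ) ≤ η * N) (h1 : H ≤ l * x) (h2 : (N₀ : ℝ) ≤ l * x) :
    volume (Near P l H x) ≤ ENNReal.ofReal (6 * H * η * x) := by
  refine (vol_Near P l H x hl (by linarith)).trans (ENNReal.ofReal_le_ofReal ?_)
  have h0 : 0 ≤ 2 * l * x + H := by nlinarith
  have h3 : N₀ ≤ ⌊2 * l * x + H⌋₊ := Nat.le_floor (by nlinarith)
  have h4 := hcb _ h3
  have h5 := Nat.floor_le h0
  calc (cb P ⌊2 * l * x + H⌋₊ : ℝ) * (2 * H / l) ≤ (η * (3 * (l * x))) * (2 * H / l) := by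
        apply mul_le_mul_of_nonneg_right _ (by positivity)
        refine h4.trans (mul_le_mul_of_nonneg_left ?_ hη)
        linarith
    _ = 6 * H * η * x := by field_simp; ring

/-- **One stage.** -/
theorem stage {P : ℕ → Prop} (hP : ∀ n, 1 ≤ n → (P n ↔ P (T n))) {x H η : ℝ} {t R N₀ : ℕ} (ht : 1 ≤ t)
    (hx1 : (2 : ℝ) ^ t ≤ x) (hx2 : x < 2 ^ (t + 1)) (hH : 3 ≤ H) (hR : 1 ≤ R) (hRt : R ≤ t / 2)
    (hκ : 3 ^ (t / 2 + R) ≤ 2 ^ t) (hlow : H ≤ (3 : ℝ) ^ (t / 2 - R) / 2 ^ t * x)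
    (hN : (N₀ : ℝ) ≤ (3 : ℝ) ^ (t / 2 - R) / 2 ^ t * x) (hη : 0 ≤ η)
    (hcb : ∀ N : ℕ, N₀ ≤ N → (cb P N : ℝ) ≤ η * N) :
    volume (Dset P x ((3 : ℝ) ^ (t / 2) / 2 ^ t)) ≤
      ENNReal.ofReal ((12 * (2 * R + 1) * H * η + (33 / √H + 3 * t / (2 * R) ^ 2)) * x) := by
  classical
  have hx0 : 1 ≤ x := le_trans (one_le_pow₀ (by norm_num)) hx1
  set B₁ : Set ℕ := {n | H < off t n} with hB₁
  set B₂ : Set ℕ := {n | 2 * (R : ℝ) ≤ |2 * (od t n : ℝ) - t|} with hB₂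
  have hR0 : (0 : ℝ) < R := by exact_mod_cast hR
  have hsub : Dset P x ((3 : ℝ) ^ (t / 2) / 2 ^ t) ⊆
      (⋃ i ∈ Finset.Icc (t / 2 - R) (t / 2 + R),
        (Near P ((3 : ℝ) ^ i / 2 ^ t) H x ∪ Near P (2 * ((3 : ℝ) ^ i / 2 ^ t)) H x)) ∪
      ({y : ℝ | x ≤ y ∧ y ≤ 2 * x ∧ ⌊y⌋₊ ∈ B₁} ∪ {y : ℝ | x ≤ y ∧ y ≤ 2 * x ∧ ⌊y⌋₊ ∈ B₂}) := by
    rintro y ⟨h1, h2, h3⟩
    by_contra hcon
    rw [Set.mem_union, Set.mem_union, not_or, not_or] at hcon
    obtain ⟨g1, g2, g3⟩ := hcon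
    rw [Set.mem_iUnion₂] at g1
    push Not at g1
    apply h3
    apply transfer hP hx0 hH hRt hκ (le_trans (by linarith) hlow) h1 h2
    · intro i hi1 hi2 hc
      exact g1 i (Finset.mem_Icc.2 ⟨hi1, hi2⟩) (Or.inl hc)
    · intro i hi1 hi2 hc
      exact g1 i (Finset.mem_Icc.2 ⟨hi1, hi2⟩) (Or.inr hc)
    · by_contra hc
      push Not at hc
      exact g2 ⟨h1, h2, hc⟩
    · by_contra hc
      push Not at hc
      exact g3 ⟨h1, h2, hc⟩
  have b1 : volume {y : ℝ | x ≤ y ∧ y ≤ 2 * x ∧ ⌊y⌋₊ ∈ B₁} ≤ ENNReal.ofReal (33 / √H * x) := by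
    have h := vol_blocks B₁ t x (11 / √H) ht hx1 hx2 (fun c => by
      have := card_off t c H (by linarith)
      calc (((Ico c (c + 2 ^ t)).filter (· ∈ B₁)).card : ℝ)
          = (((Ico c (c + 2 ^ t)).filter (fun n => H < off t n)).card : ℝ) := by rfl
        _ ≤ 11 * 2 ^ t / √H := this
        _ = 11 / √H * 2 ^ t := by ring)
    refine h.trans (le_of_eq ?_)
    congr 1; ring
  have b2 : volume {y : ℝ | x ≤ y ∧ y ≤ 2 * x ∧ ⌊y⌋₊ ∈ B₂} ≤
      ENNReal.ofReal (3 * t / (2 * R) ^ 2 * x) := by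
    have h := vol_blocks B₂ t x (t / (2 * R) ^ 2) ht hx1 hx2 (fun c => by
      have := card_od t c (2 * R) (by positivity)
      calc (((Ico c (c + 2 ^ t)).filter (· ∈ B₂)).card : ℝ)
          = (((Ico c (c + 2 ^ t)).filter (fun n => 2 * (R : ℝ) ≤ |2 * (od t n : ℝ) - t|)).card : ℝ) := by
            rfl
        _ ≤ t * 2 ^ t / (2 * R) ^ 2 := this
        _ = t / (2 * R) ^ 2 * 2 ^ t := by ring)
    refine h.trans (le_of_eq ?_)
    congr 1; ring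
  have hlow' : ∀ i, t / 2 - R ≤ i → (3 : ℝ) ^ (t / 2 - R) / 2 ^ t * x ≤ (3 : ℝ) ^ i / 2 ^ t * x := by
    intro i hi
    gcongr
    norm_num
  have b3 : volume (⋃ i ∈ Finset.Icc (t / 2 - R) (t / 2 + R),
        (Near P ((3 : ℝ) ^ i / 2 ^ t) H x ∪ Near P (2 * ((3 : ℝ) ^ i / 2 ^ t)) H x)) ≤
      ENNReal.ofReal (12 * (2 * R + 1) * H * η * x) := by
    calc volume (⋃ i ∈ Finset.Icc (t / 2 - R) (t / 2 + R),
          (Near P ((3 : ℝ) ^ i / 2 ^ t) H x ∪ Near P (2 * ((3 : ℝ) ^ i / 2 ^ t)) H x))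
        ≤ ∑ i ∈ Finset.Icc (t / 2 - R) (t / 2 + R),
          volume (Near P ((3 : ℝ) ^ i / 2 ^ t) H x ∪ Near P (2 * ((3 : ℝ) ^ i / 2 ^ t)) H x) :=
          measure_biUnion_finset_le _ _
      _ ≤ ∑ i ∈ Finset.Icc (t / 2 - R) (t / 2 + R), ENNReal.ofReal (12 * H * η * x) := by
          apply Finset.sum_le_sum
          intro i hi
          rw [Finset.mem_Icc] at hi
          have g := hlow' i hi.1
          have hpos : (0 : ℝ) < (3 : ℝ) ^ i / 2 ^ t := by positivity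
          have c1 := vol_Near' (P := P) hpos (by linarith : (1 : ℝ) ≤ H) hη hcb (hlow.trans g) (hN.trans g)
          have c2 := vol_Near' (P := P) (l := 2 * ((3 : ℝ) ^ i / 2 ^ t)) (x := x) (H := H) (by positivity)
            (by linarith : (1 : ℝ) ≤ H) hη hcb (by nlinarith [hlow.trans g]) (by
              have := hN.trans g
              have h0 : (0 : ℝ) ≤ N₀ := Nat.cast_nonneg _
              nlinarith)
          calc volume (Near P ((3 : ℝ) ^ i / 2 ^ t) H x ∪ Near P (2 * ((3 : ℝ) ^ i / 2 ^ t)) H x)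
              ≤ volume (Near P ((3 : ℝ) ^ i / 2 ^ t) H x) + volume (Near P (2 * ((3 : ℝ) ^ i / 2 ^ t)) H x) :=
                measure_union_le _ _
            _ ≤ ENNReal.ofReal (6 * H * η * x) + ENNReal.ofReal (6 * H * η * x) := add_le_add c1 c2
            _ = ENNReal.ofReal (12 * H * η * x) := by
                rw [← ENNReal.ofReal_add (by positivity) (by positivity)]
                congr 1; ring
      _ = ENNReal.ofReal (12 * (2 * R + 1) * H * η * x) := by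
          rw [Finset.sum_const, Nat.card_Icc, nsmul_eq_mul]
          have e : t / 2 + R + 1 - (t / 2 - R) = 2 * R + 1 := by omega
          rw [e, ← ENNReal.ofReal_natCast, ← ENNReal.ofReal_mul (by positivity)]
          congr 1
          push_cast
          ring
  calc volume (Dset P x ((3 : ℝ) ^ (t / 2) / 2 ^ t))
      ≤ volume ((⋃ i ∈ Finset.Icc (t / 2 - R) (t / 2 + R),
        (Near P ((3 : ℝ) ^ i / 2 ^ t) H x ∪ Near P (2 * ((3 : ℝ) ^ i / 2 ^ t)) H x)) ∪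
      ({y : ℝ | x ≤ y ∧ y ≤ 2 * x ∧ ⌊y⌋₊ ∈ B₁} ∪ {y : ℝ | x ≤ y ∧ y ≤ 2 * x ∧ ⌊y⌋₊ ∈ B₂})) :=
        measure_mono hsub
    _ ≤ _ + (_ + _) := (measure_union_le _ _).trans (add_le_add le_rfl (measure_union_le _ _))
    _ ≤ ENNReal.ofReal (12 * (2 * R + 1) * H * η * x) +
        (ENNReal.ofReal (33 / √H * x) + ENNReal.ofReal (3 * t / (2 * R) ^ 2 * x)) :=
        add_le_add b3 (add_le_add b1 b2)
    _ = _ := by
        rw [← ENNReal.ofReal_add (by positivity) (by positivity),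
          ← ENNReal.ofReal_add (by positivity) (by positivity)]
        congr 1; ring

end Pool.Agent.H620.Bdry
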